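import Mathlib
import Pool.Agent.Y820.LB.Pairs

/-!
# Pencils `z V + V*`: the basic identity and quotients with positive real part
-/

set_option autoImplicit false
set_option linter.unusedSectionVars false

namespace Pool.Agent.L0h53.SC

open MeasureTheory Polynomial Filter Matrix
open Pool.Agent.H261R2.CM
open Pool.Agent.W242.IM (ae_eval_ne)
open Pool.Agent.Y820.LB

noncomputable section

/-! ### domination -/

theorem dom_mul {H H' : ℝ → ℝ} {c c' : ℝ} (h : Dom H c) (h' : Dom H' c') :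
    Dom (fun t => H t * H' t) (c + c') := by
  obtain ⟨g, h1, h2, h3⟩ := h
  obtain ⟨g', h1', h2', h3'⟩ := h'
  refine ⟨fun t => g t + g' t, h1.add h1', ?_, ?_⟩
  · filter_upwards [h2, h2'] with t h4 h5
    refine ⟨mul_nonneg h4.1 h5.1, ?_⟩
    refine le_trans ?_ (add_le_add h4.2 h5.2)
    rw [← Real.log_mul (by linarith [h4.1]) (by linarith [h5.1])]
    refine Real.log_le_log (by linarith [mul_nonneg h4.1 h5.1]) ?_
    nlinarith [mul_nonneg h4.1 h5.1, h4.1, h5.1]
  · rw [intervalIntegral.integral_add h1 h1']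
    linarith

theorem dom_congr {H H' : ℝ → ℝ} {c : ℝ} (h : Dom H c) (h' : ∀ᵐ t : ℝ, H' t = H t) :
    Dom H' c := by
  obtain ⟨g, h1, h2, h3⟩ := h
  refine ⟨g, h1, ?_, h3⟩
  filter_upwards [h2, h'] with t h4 h5
  rw [h5]
  exact h4

theorem dom_one : Dom (fun _ => (1 : ℝ)) (Real.log 2) := by
  refine ⟨fun _ => Real.log 2, intervalIntegrable_const, Eventually.of_forall fun t => ⟨zero_le_one, ?_⟩, ?_⟩
  · norm_num
  · simp

/-- `a / |p|` for a polynomial without zeros in the open disc -/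
theorem dom_inv (p : ℂ[X]) (hp : ∀ z : ℂ, ‖z‖ < 1 → p.eval z ≠ 0) (hp0 : ‖p.eval 0‖ = 1)
    (B a : ℝ) (ha : 0 ≤ a) (hB : ∀ z : ℂ, ‖z‖ = 1 → ‖p.eval z‖ ≤ B) :
    Dom (fun t => a / ‖p.eval (ez t)‖) (Real.log (B + a)) := by
  have hne : p ≠ 0 := by
    rintro rfl
    simp at hp0
  have hM : p.mahlerMeasure = 1 := by rw [mahler_of_no_zeros p hp, hp0]
  refine ⟨fun t => Real.log (B + a) - Real.log ‖p.eval (ez t)‖,
    intervalIntegrable_const.sub (integrable_log p), ?_, ?_⟩
  · filter_upwards [ae_eval_ne p hne] with t ht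
    have h1 : 0 < ‖p.eval (ez t)‖ := norm_pos_iff.mpr ht
    have h2 := hB (ez t) (D_norm_ez t)
    refine ⟨by positivity, ?_⟩
    rw [← Real.log_div (by linarith) h1.ne']
    refine Real.log_le_log (by positivity) ?_
    rw [← sub_nonneg]
    have : (B + a) / ‖p.eval (ez t)‖ - (1 + a / ‖p.eval (ez t)‖) =
        (B - ‖p.eval (ez t)‖) / ‖p.eval (ez t)‖ := by
      field_simp
      ring
    rw [this]
    exact div_nonneg (by linarith) h1.le
  · rw [intervalIntegral.integral_sub intervalIntegrable_const (integrable_log p), ← log_mahler, hM]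
    simp

/-- quotients with nonnegative real part -/
theorem dom_re (N M : ℂ[X]) (hN : ∀ z : ℂ, ‖z‖ < 1 → N.eval z ≠ 0) (hM0 : M.eval 0 ≠ 0)
    (hre : ∀ z : ℂ, ‖z‖ < 1 → 0 ≤ (M.eval z * starRingEnd ℂ (N.eval z)).re) :
    Dom (fun t => ‖M.eval (ez t) / N.eval (ez t)‖ / ‖M.eval 0 / N.eval 0‖) (2 * Real.log 2) := by
  have hN0 := hN 0 (by simp)
  set ρ := ‖M.eval 0 / N.eval 0‖ with hρ
  have hρ0 : 0 < ρ := norm_pos_iff.mpr (div_ne_zero hM0 hN0)
  have hNpos : 0 < ‖N.eval 0‖ := norm_pos_iff.mpr hN0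
  -- nonnegative real part on the closed disc
  have hre' : ∀ z : ℂ, ‖z‖ ≤ 1 → 0 ≤ (M.eval z * starRingEnd ℂ (N.eval z)).re := by
    intro z hz
    have hcont : Continuous fun r : ℝ => (M.eval ((r : ℂ) * z) *
        starRingEnd ℂ (N.eval ((r : ℂ) * z))).re := by
      refine Complex.continuous_re.comp (Continuous.mul ?_ ?_)
      · exact M.continuous.comp (by fun_prop)
      · exact Complex.continuous_conj.comp (N.continuous.comp (by fun_prop))
    have h1 : Filter.Tendsto (fun r : ℝ => (M.eval ((r : ℂ) * z) *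
        starRingEnd ℂ (N.eval ((r : ℂ) * z))).re) (nhdsWithin 1 (Set.Iio 1))
        (nhds (M.eval ((1 : ℝ) * z) * starRingEnd ℂ (N.eval ((1 : ℝ) * z))).re) :=
      hcont.continuousAt.tendsto.mono_left nhdsWithin_le_nhds
    have h2 : ∀ᶠ r : ℝ in nhdsWithin 1 (Set.Iio 1), 0 ≤ (M.eval ((r : ℂ) * z) *
        starRingEnd ℂ (N.eval ((r : ℂ) * z))).re := by
      filter_upwards [Ioo_mem_nhdsLT (show (0:ℝ) < 1 by norm_num)] with r hr
      refine hre _ ?_
      rw [norm_mul, Complex.norm_real, Real.norm_of_nonneg hr.1.le]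
      nlinarith [norm_nonneg z, hr.1, hr.2]
    have h3 := ge_of_tendsto h1 h2
    simpa using h3
  set R := C (ρ : ℂ) * N + M with hR
  have hRe : ∀ z, R.eval z = (ρ : ℂ) * N.eval z + M.eval z := by
    intro z
    simp [hR]
  have hRd : ∀ z : ℂ, ‖z‖ < 1 → R.eval z ≠ 0 := by
    intro z hz h1
    rw [hRe] at h1
    have h2 : M.eval z = -((ρ : ℂ) * N.eval z) := by linear_combination h1
    have h3 := hre z hz
    rw [h2] at h3
    have h4 : (-((ρ : ℂ) * N.eval z) * starRingEnd ℂ (N.eval z)).re =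
        -(ρ * Complex.normSq (N.eval z)) := by
      rw [neg_mul, mul_assoc, Complex.mul_conj, Complex.neg_re, Complex.re_ofReal_mul,
        Complex.ofReal_re]
    rw [h4] at h3
    have h5 : 0 < Complex.normSq (N.eval z) := Complex.normSq_pos.mpr (hN z hz)
    nlinarith [mul_pos hρ0 h5]
  have hNm : N.mahlerMeasure = ‖N.eval 0‖ := mahler_of_no_zeros N hN
  have hRm : R.mahlerMeasure ≤ 2 * ρ * ‖N.eval 0‖ := by
    rw [mahler_of_no_zeros R hRd, hRe]
    refine (norm_add_le _ _).trans (le_of_eq ?_)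
    rw [norm_mul, Complex.norm_real, Real.norm_of_nonneg hρ0.le]
    have h1 : ‖M.eval 0‖ = ρ * ‖N.eval 0‖ := by
      rw [hρ, norm_div]
      field_simp
    rw [h1]
    ring
  have hRm0 : 0 < R.mahlerMeasure := by
    rw [mahler_of_no_zeros R hRd]
    exact norm_pos_iff.mpr (hRd 0 (by simp))
  have hNne : N ≠ 0 := by
    rintro rfl
    simp at hN0
  have hRne : R ≠ 0 := by
    intro h
    exact hRd 0 (by simp) (by rw [h]; simp)
  refine ⟨fun t => Real.log 2 - Real.log ρ + (Real.log ‖R.eval (ez t)‖ - Real.log ‖N.eval (ez t)‖),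
    ?_, ?_, ?_⟩
  · exact intervalIntegrable_const.add ((integrable_log R).sub (integrable_log N))
  · filter_upwards [ae_eval_ne N hNne, ae_eval_ne R hRne] with t ht htR
    have h2 := hre' (ez t) (D_norm_ez t).le
    have hn : 0 < ‖N.eval (ez t)‖ := norm_pos_iff.mpr ht
    have hr : 0 < ‖R.eval (ez t)‖ := norm_pos_iff.mpr htR
    refine ⟨by positivity, ?_⟩
    -- |R| ≥ |M|, |R| ≥ ρ |N|
    have e1 : Complex.normSq (R.eval (ez t)) = ρ ^ 2 * Complex.normSq (N.eval (ez t)) +
        Complex.normSq (M.eval (ez t)) +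
        2 * ρ * (M.eval (ez t) * starRingEnd ℂ (N.eval (ez t))).re := by
      rw [hRe]
      simp only [Complex.normSq_apply, Complex.add_re, Complex.add_im, Complex.mul_im,
        Complex.mul_re, Complex.conj_re, Complex.conj_im, Complex.ofReal_re, Complex.ofReal_im]
      ring
    have hMn : ‖M.eval (ez t)‖ ≤ ‖R.eval (ez t)‖ := by
      rw [← sq_le_sq₀ (norm_nonneg _) (norm_nonneg _), ← Complex.normSq_eq_norm_sq,
        ← Complex.normSq_eq_norm_sq, e1]
      nlinarith [Complex.normSq_nonneg (N.eval (ez t)), mul_nonneg hρ0.le h2,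
        mul_nonneg (sq_nonneg ρ) (Complex.normSq_nonneg (N.eval (ez t)))]
    have hNn : ρ * ‖N.eval (ez t)‖ ≤ ‖R.eval (ez t)‖ := by
      rw [← sq_le_sq₀ (by positivity) (norm_nonneg _), mul_pow,
        ← Complex.normSq_eq_norm_sq (N.eval (ez t)), ← Complex.normSq_eq_norm_sq (R.eval (ez t)), e1]
      nlinarith [Complex.normSq_nonneg (M.eval (ez t)), mul_nonneg hρ0.le h2]
    have h5 : 1 + ‖M.eval (ez t) / N.eval (ez t)‖ / ρ ≤
        2 / ρ * (‖R.eval (ez t)‖ / ‖N.eval (ez t)‖) := by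
      rw [norm_div]
      have h6 : 1 + ‖M.eval (ez t)‖ / ‖N.eval (ez t)‖ / ρ =
          (ρ * ‖N.eval (ez t)‖ + ‖M.eval (ez t)‖) / (ρ * ‖N.eval (ez t)‖) := by
        field_simp
      have h7 : 2 / ρ * (‖R.eval (ez t)‖ / ‖N.eval (ez t)‖) =
          (2 * ‖R.eval (ez t)‖) / (ρ * ‖N.eval (ez t)‖) := by
        field_simp
      rw [h6, h7]
      exact div_le_div_of_nonneg_right (by linarith) (by positivity)
    refine (Real.log_le_log (by positivity) h5).trans (le_of_eq ?_)
    rw [Real.log_mul (by positivity) (by positivity), Real.log_div (by norm_num) hρ0.ne',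
      Real.log_div hr.ne' hn.ne']
  · rw [intervalIntegral.integral_add intervalIntegrable_const
      ((integrable_log R).sub (integrable_log N)),
      intervalIntegral.integral_sub (integrable_log R) (integrable_log N), ← log_mahler,
      ← log_mahler, hNm]
    have h1 := Real.log_le_log hRm0 hRm
    rw [Real.log_mul (by positivity) hNpos.ne', Real.log_mul (by norm_num) hρ0.ne'] at h1
    simp only [intervalIntegral.integral_const, sub_zero, one_smul]
    linarith

/-! ### the pencil -/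

variable {ι : Type*} [Fintype ι] [DecidableEq ι]

/-- the determinant of `z W + W*` -/
def ff (W : Matrix ι ι ℂ) (z : ℂ) : ℂ := (z • W + Wᴴ).det

/-- the polynomial -/
def fp (W : Matrix ι ι ℂ) : ℂ[X] := (Matrix.of fun i j => X * C (W i j) + C (star (W j i))).det

theorem fp_eval (W : Matrix ι ι ℂ) (z : ℂ) : (fp W).eval z = ff W z := by
  unfold fp ff
  rw [← coe_evalRingHom, RingHom.map_det]
  congr 1
  ext i j
  simp [Matrix.map_apply, Matrix.conjTranspose_apply]
  ring

/-- normalized determinant -/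
def gg (W : Matrix ι ι ℂ) (z : ℂ) : ℂ := ff W z / ff W 0

/-- the sesquilinear form -/
def sf (W : Matrix ι ι ℂ) (x y : ι → ℂ) : ℂ := star x ⬝ᵥ (W *ᵥ y)

theorem star_sf (W : Matrix ι ι ℂ) (x y : ι → ℂ) : star (sf W x y) = star y ⬝ᵥ (Wᴴ *ᵥ x) := by
  unfold sf
  rw [Matrix.star_dotProduct, star_star, Matrix.star_mulVec, ← Matrix.dotProduct_mulVec]

theorem pencil_form (W : Matrix ι ι ℂ) (z : ℂ) (x y : ι → ℂ) :
    star x ⬝ᵥ ((z • W + Wᴴ) *ᵥ y) = z * sf W x y + star (sf W y x) := by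
  rw [star_sf, Matrix.add_mulVec, dotProduct_add, Matrix.smul_mulVec, dotProduct_smul]
  rfl

/-- positivity -/
def PosF (W : Matrix ι ι ℂ) : Prop := ∀ x : ι → ℂ, x ≠ 0 → 0 < (sf W x x).re

theorem ff_ne {W : Matrix ι ι ℂ} (hW : PosF W) {z : ℂ} (hz : ‖z‖ < 1) : ff W z ≠ 0 := by
  intro h
  obtain ⟨v, hv, h1⟩ := Matrix.exists_mulVec_eq_zero_iff.mpr h
  have h2 := pencil_form W z v v
  rw [h1, dotProduct_zero] at h2
  have h3 : ‖sf W v v‖ = ‖z‖ * ‖sf W v v‖ := by
    have h4 : z * sf W v v = -star (sf W v v) := by linear_combination -h2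
    rw [← norm_mul, h4, norm_neg, norm_star]
  have h4 : 0 < ‖sf W v v‖ := by
    refine norm_pos_iff.mpr fun h5 => ?_
    have := hW v hv
    rw [h5] at this
    simp at this
  nlinarith

end

end Pool.Agent.L0h53.SC
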