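import Mathlib
import Pool.Agent.L0h53.SC.A

/-!
# One step
-/

set_option autoImplicit false
set_option linter.unusedSectionVars false

namespace Pool.Agent.L0h53.SC

open MeasureTheory Polynomial Filter Matrix
open Pool.Agent.H261R2.CM
open Pool.Agent.W242.IM (ae_eval_ne)
open Pool.Agent.Y820.LB

noncomputable section

variable {d : ℕ}

/-- delete the first row and column -/
def tl (W : Matrix (Fin (d + 1)) (Fin (d + 1)) ℂ) : Matrix (Fin d) (Fin d) ℂ :=
  W.submatrix Fin.succ Fin.succ

theorem sf_cons (W : Matrix (Fin (d + 1)) (Fin (d + 1)) ℂ) (x : Fin d → ℂ) :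
    sf W (Fin.cons 0 x) (Fin.cons 0 x) = sf (tl W) x x := by
  simp [sf, tl, dotProduct, Matrix.mulVec, Fin.sum_univ_succ]

theorem PosF.tl {W : Matrix (Fin (d + 1)) (Fin (d + 1)) ℂ} (hW : PosF W) : PosF (tl W) := by
  intro x hx
  rw [← sf_cons]
  refine hW _ fun h => hx ?_
  ext i
  have := congrFun h i.succ
  simpa using this

theorem step_re {W : Matrix (Fin (d + 1)) (Fin (d + 1)) ℂ} (hW : PosF W) {z : ℂ} (hz : ‖z‖ < 1) :
    0 ≤ (ff W z * starRingEnd ℂ ((1 - z) * ff (tl W) z)).re := by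
  set M := z • W + Wᴴ with hM
  set v : Fin (d + 1) → ℂ := fun i => M.adjugate i 0 with hv
  have h0 : v 0 = ff (tl W) z := by
    rw [hv]
    dsimp only
    rw [Matrix.adjugate_fin_succ_eq_det_submatrix]
    simp only [Fin.val_zero, add_zero, pow_zero, one_mul]
    unfold ff
    congr 1
  have h1 : M *ᵥ v = fun i => if i = 0 then ff W z else 0 := by
    ext i
    have h2 := congrFun (congrFun (Matrix.mul_adjugate M) i) 0
    rw [Matrix.mul_apply] at h2
    rw [Matrix.mulVec, dotProduct]
    rw [h2, Matrix.smul_apply, Matrix.one_apply]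
    split_ifs
    · simp [ff, hM]
    · simp
  have h2 := pencil_form W z v v
  rw [← hM, h1] at h2
  have h3 : star v ⬝ᵥ (fun i : Fin (d + 1) => if i = 0 then ff W z else 0) =
      star (ff (tl W) z) * ff W z := by
    rw [dotProduct, Finset.sum_eq_single 0]
    · simp [h0]
    · intro i _ hi
      simp [hi]
    · simp
  rw [h3] at h2
  set a := sf W v v with ha
  have ha0 : 0 ≤ a.re := by
    by_cases hv0 : v = 0
    · rw [ha, hv0]
      simp [sf]
    · exact (hW v hv0).le
  have hs : star a = starRingEnd ℂ a := rfl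
  have hs' : star (ff (tl W) z) = starRingEnd ℂ (ff (tl W) z) := rfl
  rw [hs, hs'] at h2
  have h4 : (ff W z * starRingEnd ℂ ((1 - z) * ff (tl W) z)).re = (1 - Complex.normSq z) * a.re := by
    have h5 : ff W z * starRingEnd ℂ ((1 - z) * ff (tl W) z) =
        (1 - starRingEnd ℂ z) * (z * a + starRingEnd ℂ a) := by
      rw [← h2, map_mul, map_sub, map_one]
      ring
    rw [h5]
    simp only [Complex.normSq_apply, Complex.mul_re, Complex.sub_re, Complex.one_re,
      Complex.conj_re, Complex.add_re, Complex.sub_im, Complex.one_im, Complex.conj_im,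
      Complex.add_im, Complex.mul_im]
    ring
  rw [h4]
  refine mul_nonneg ?_ ha0
  rw [Complex.normSq_eq_norm_sq]
  nlinarith [norm_nonneg z]

theorem ff_zero (W : Matrix (Fin d) (Fin d) ℂ) : ff W 0 = star W.det := by
  unfold ff
  rw [zero_smul, zero_add, Matrix.det_conjTranspose]

/-- the ratio of the normalized determinants, divided by `1 - z` -/
theorem step_dom {W : Matrix (Fin (d + 1)) (Fin (d + 1)) ℂ} (hW : PosF W) :
    Dom (fun t => ‖gg W (ez t)‖ / ‖gg (tl W) (ez t)‖ / ‖1 - ez t‖) (2 * Real.log 2) ∧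
    Dom (fun t => ‖gg (tl W) (ez t)‖ * ‖1 - ez t‖ / ‖gg W (ez t)‖) (2 * Real.log 2) := by
  have hN : ∀ z : ℂ, ‖z‖ < 1 → ((1 - X) * fp (tl W)).eval z ≠ 0 := by
    intro z hz
    rw [eval_mul, fp_eval, eval_sub, eval_one, eval_X]
    refine mul_ne_zero (fun h => ?_) (ff_ne hW.tl hz)
    have : z = 1 := by linear_combination -h
    rw [this] at hz
    simp at hz
  have hM : ∀ z : ℂ, ‖z‖ < 1 → (fp W).eval z ≠ 0 := by
    intro z hz
    rw [fp_eval]
    exact ff_ne hW hz
  have h0 : ff (tl W) 0 ≠ 0 := ff_ne hW.tl (by simp)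
  have h0' : ff W 0 ≠ 0 := ff_ne hW (by simp)
  constructor
  · have h1 := dom_re ((1 - X) * fp (tl W)) (fp W) hN (hM 0 (by simp)) (by
      intro z hz
      rw [fp_eval, eval_mul, fp_eval, eval_sub, eval_one, eval_X]
      exact step_re hW hz)
    refine dom_congr h1 (Eventually.of_forall fun t => ?_)
    simp only [fp_eval, eval_mul, eval_sub, eval_one, eval_X, gg, norm_div, norm_mul, sub_zero,
      norm_one, one_mul]
    by_cases h2 : ‖ff (tl W) (ez t)‖ = 0
    · simp [h2]
    by_cases h3 : ‖1 - ez t‖ = 0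
    · simp [h3]
    have h4 := norm_ne_zero_iff.mpr h0
    have h5 := norm_ne_zero_iff.mpr h0'
    field_simp
  · have h1 := dom_re (fp W) ((1 - X) * fp (tl W)) hM (hN 0 (by simp)) (by
      intro z hz
      rw [fp_eval, eval_mul, fp_eval, eval_sub, eval_one, eval_X]
      have h2 := step_re hW hz
      have h3 : ((1 - z) * ff (tl W) z * starRingEnd ℂ (ff W z)).re =
          (ff W z * starRingEnd ℂ ((1 - z) * ff (tl W) z)).re := by
        rw [← Complex.conj_re]
        congr 1
        simp only [map_mul, Complex.conj_conj]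
        ring
      rw [h3]
      exact h2)
    refine dom_congr h1 (Eventually.of_forall fun t => ?_)
    simp only [fp_eval, eval_mul, eval_sub, eval_one, eval_X, gg, norm_div, norm_mul, sub_zero,
      norm_one, one_mul]
    by_cases h2 : ‖ff W (ez t)‖ = 0
    · simp [h2]
    have h4 := norm_ne_zero_iff.mpr h0
    have h5 := norm_ne_zero_iff.mpr h0'
    field_simp

theorem dom_plus (a : ℝ) (ha : 0 ≤ a) : Dom (fun t => a / ‖1 + ez t‖) (Real.log (2 + a)) := by
  have h := dom_inv (1 + X) (by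
    intro z hz h
    rw [eval_add, eval_one, eval_X] at h
    have : z = -1 := by linear_combination h
    rw [this] at hz
    simp at hz) (by simp) 2 a ha (by
      intro z hz
      rw [eval_add, eval_one, eval_X]
      refine (norm_add_le _ _).trans ?_
      rw [norm_one, hz]
      norm_num)
  refine dom_congr h (Eventually.of_forall fun t => ?_)
  simp

theorem dom_minus (a : ℝ) (ha : 0 ≤ a) : Dom (fun t => a / ‖1 - ez t‖) (Real.log (2 + a)) := by
  have h := dom_inv (1 - X) (by
    intro z hz h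
    rw [eval_sub, eval_one, eval_X] at h
    have : z = 1 := by linear_combination -h
    rw [this] at hz
    simp at hz) (by simp) 2 a ha (by
      intro z hz
      rw [eval_sub, eval_one, eval_X]
      refine (norm_sub_le _ _).trans ?_
      rw [norm_one, hz]
      norm_num)
  refine dom_congr h (Eventually.of_forall fun t => ?_)
  simp

/-- the normalized determinant divided by `(1 + z) ^ d` -/
def hh {ι : Type*} [Fintype ι] [DecidableEq ι] (W : Matrix ι ι ℂ) (t : ℝ) : ℝ :=
  ‖gg W (ez t)‖ / ‖1 + ez t‖ ^ Fintype.card ι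

theorem one_step {W : Matrix (Fin (d + 1)) (Fin (d + 1)) ℂ} (hW : PosF W) :
    Dom (fun t => hh W t / hh (tl W) t) (4 * Real.log 2) ∧
    Dom (fun t => hh (tl W) t / hh W t) (4 * Real.log 2) := by
  obtain ⟨h1, h2⟩ := step_dom hW
  have hlog : 2 * Real.log 2 + Real.log (2 + 2) = 4 * Real.log 2 := by
    rw [show (2:ℝ) + 2 = 2 ^ 2 by norm_num, Real.log_pow]
    push_cast
    ring
  have hm : ∀ᵐ t : ℝ, (1 - X : ℂ[X]).eval (ez t) ≠ 0 := ae_eval_ne _ (by
    intro h
    have := congrArg (eval 0) h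
    simp at this)
  have hp : ∀ᵐ t : ℝ, (1 + X : ℂ[X]).eval (ez t) ≠ 0 := ae_eval_ne _ (by
    intro h
    have := congrArg (eval 0) h
    simp at this)
  constructor
  · have h3 := dom_mul h1 (dom_plus 2 (by norm_num))
    rw [hlog] at h3
    refine h3.mono ?_
    filter_upwards [hm, hp] with t ht1 ht2
    rw [eval_sub, eval_one, eval_X] at ht1
    rw [eval_add, eval_one, eval_X] at ht2
    have e1 : 0 < ‖1 - ez t‖ := norm_pos_iff.mpr ht1
    have e2 : 0 < ‖1 + ez t‖ := norm_pos_iff.mpr ht2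
    have e3 : ‖1 - ez t‖ ≤ 2 := by
      refine (norm_sub_le _ _).trans ?_
      rw [norm_one, D_norm_ez]
      norm_num
    unfold hh
    refine ⟨by positivity, ?_⟩
    simp only [Fintype.card_fin]
    by_cases h4 : ‖gg (tl W) (ez t)‖ = 0
    · simp [h4]
    have e4 : ‖gg W (ez t)‖ / ‖1 + ez t‖ ^ (d + 1) / (‖gg (tl W) (ez t)‖ / ‖1 + ez t‖ ^ d) =
        ‖gg W (ez t)‖ / ‖gg (tl W) (ez t)‖ / ‖1 - ez t‖ * (‖1 - ez t‖ / ‖1 + ez t‖) := by
      rw [pow_succ]
      field_simp
    rw [e4]
    refine mul_le_mul_of_nonneg_left ?_ (by positivity)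
    exact div_le_div_of_nonneg_right e3 e2.le
  · have h3 := dom_mul h2 (dom_minus 2 (by norm_num))
    rw [hlog] at h3
    refine h3.mono ?_
    filter_upwards [hm, hp] with t ht1 ht2
    rw [eval_sub, eval_one, eval_X] at ht1
    rw [eval_add, eval_one, eval_X] at ht2
    have e1 : 0 < ‖1 - ez t‖ := norm_pos_iff.mpr ht1
    have e2 : 0 < ‖1 + ez t‖ := norm_pos_iff.mpr ht2
    have e3 : ‖1 + ez t‖ ≤ 2 := by
      refine (norm_add_le _ _).trans ?_
      rw [norm_one, D_norm_ez]
      norm_num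
    unfold hh
    refine ⟨by positivity, ?_⟩
    simp only [Fintype.card_fin]
    by_cases h4 : ‖gg W (ez t)‖ = 0
    · simp [h4]
    have e4 : ‖gg (tl W) (ez t)‖ / ‖1 + ez t‖ ^ d / (‖gg W (ez t)‖ / ‖1 + ez t‖ ^ (d + 1)) =
        ‖gg (tl W) (ez t)‖ * ‖1 - ez t‖ / ‖gg W (ez t)‖ * (‖1 + ez t‖ / ‖1 - ez t‖) := by
      rw [pow_succ]
      field_simp
    rw [e4]
    refine mul_le_mul_of_nonneg_left ?_ (by positivity)
    exact div_le_div_of_nonneg_right e3 e1.le

end

end Pool.Agent.L0h53.SC
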