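import Mathlib
import Pool.Agent.L0h53.SC.B

/-!
# Subspaces
-/

set_option autoImplicit false
set_option linter.unusedSectionVars false

namespace Pool.Agent.L0h53.SC

open MeasureTheory Polynomial Filter Matrix Module
open Pool.Agent.H261R2.CM
open Pool.Agent.W242.IM (ae_eval_ne)
open Pool.Agent.Y820.LB

noncomputable section

variable {n : ℕ} (V : Matrix (Fin n) (Fin n) ℂ)
variable {ι ι' : Type*} [Fintype ι] [DecidableEq ι] [Fintype ι'] [DecidableEq ι']

/-- Gram matrix of a family of vectors -/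
def gr (b : ι → Fin n → ℂ) : Matrix ι ι ℂ := Matrix.of fun i j => sf V (b i) (b j)

theorem sf_sum (b : ι → Fin n → ℂ) (p q : ι → ℂ) :
    sf V (∑ i, p i • b i) (∑ j, q j • b j) = sf (gr V b) p q := by
  unfold sf
  rw [Matrix.mulVec_sum, dotProduct_sum]
  have h1 : ∀ j, star (∑ i, p i • b i) ⬝ᵥ (V *ᵥ (q j • b j)) =
      ∑ i, star (p i) * (gr V b i j * q j) := by
    intro j
    rw [Matrix.mulVec_smul, dotProduct_smul, star_sum, sum_dotProduct, smul_eq_mul, Finset.mul_sum]
    refine Finset.sum_congr rfl fun i _ => ?_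
    rw [star_smul, smul_dotProduct, smul_eq_mul]
    show q j * (star (p i) * sf V (b i) (b j)) = star (p i) * (sf V (b i) (b j) * q j)
    ring
  simp only [h1]
  rw [Finset.sum_comm]
  simp only [dotProduct, Matrix.mulVec, Finset.mul_sum, Pi.star_apply]

theorem gr_comb (b : ι → Fin n → ℂ) (P : Matrix ι ι' ℂ) (b' : ι' → Fin n → ℂ)
    (h : ∀ j, b' j = ∑ i, P i j • b i) : gr V b' = Pᴴ * gr V b * P := by
  ext j l
  show sf V (b' j) (b' l) = _
  rw [h, h, sf_sum, Matrix.mul_assoc, Matrix.mul_apply]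
  unfold sf
  rfl

theorem ff_congr (W : Matrix ι ι ℂ) (P : Matrix ι ι ℂ) (z : ℂ) :
    ff (Pᴴ * W * P) z = Pᴴ.det * P.det * ff W z := by
  unfold ff
  have h : z • (Pᴴ * W * P) + (Pᴴ * W * P)ᴴ = Pᴴ * (z • W + Wᴴ) * P := by
    rw [Matrix.conjTranspose_mul, Matrix.conjTranspose_mul, Matrix.conjTranspose_conjTranspose,
      Matrix.mul_add, Matrix.add_mul, Matrix.mul_smul, Matrix.smul_mul, Matrix.mul_assoc Pᴴ Wᴴ P]
  rw [h, Matrix.det_mul, Matrix.det_mul]
  ring

theorem gg_congr (W : Matrix ι ι ℂ) (P : Matrix ι ι ℂ) (hP : P.det ≠ 0) (z : ℂ) :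
    gg (Pᴴ * W * P) z = gg W z := by
  unfold gg
  rw [ff_congr, ff_congr, mul_div_mul_left]
  rw [Matrix.det_conjTranspose]
  exact mul_ne_zero (star_ne_zero.mpr hP) hP

theorem ff_reindex (W : Matrix ι ι ℂ) (e : ι' ≃ ι) (z : ℂ) : ff (W.submatrix e e) z = ff W z := by
  unfold ff
  have h : z • W.submatrix e e + (W.submatrix e e)ᴴ = (z • W + Wᴴ).submatrix e e := by
    ext i j
    simp
  rw [h, Matrix.det_submatrix_equiv_self]

variable {A I : Submodule ℂ (Fin n → ℂ)}

theorem gg_basis (b : Basis ι ℂ A) (b' : Basis ι' ℂ A) (z : ℂ) :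
    gg (gr V (fun i => (b i : Fin n → ℂ))) z = gg (gr V (fun i => (b' i : Fin n → ℂ))) z := by
  set e := b.indexEquiv b' with he
  set c := b'.reindex e.symm with hc
  have h1 : gr V (fun i => (c i : Fin n → ℂ)) =
      (gr V (fun i => (b' i : Fin n → ℂ))).submatrix e e := by
    ext i j
    simp [gr, hc]
  have h2 : gg (gr V (fun i => (b' i : Fin n → ℂ))) z = gg (gr V (fun i => (c i : Fin n → ℂ))) z := by
    unfold gg
    rw [h1, ff_reindex, ff_reindex]
  rw [h2]
  have h3 : ∀ j, (c j : Fin n → ℂ) = ∑ i, b.toMatrix c i j • (b i : Fin n → ℂ) := by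
    intro j
    have h4 := b.sum_toMatrix_smul_self c j
    calc (c j : Fin n → ℂ) = ((∑ i, b.toMatrix c i j • b i : A) : Fin n → ℂ) := by rw [h4]
      _ = _ := by simp only [Submodule.coe_sum, Submodule.coe_smul]
  rw [gr_comb V (fun i => (b i : Fin n → ℂ)) (b.toMatrix c) (fun i => (c i : Fin n → ℂ)) h3]
  rw [gg_congr]
  intro h6
  have h7 := congrArg Matrix.det (b.toMatrix_mul_toMatrix_flip c)
  rw [Matrix.det_mul, h6, zero_mul, Matrix.det_one] at h7
  exact zero_ne_one h7

/-- the function of a subspace -/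
def HA (A : Submodule ℂ (Fin n → ℂ)) (t : ℝ) : ℝ :=
  hh (gr V (fun i => (finBasis ℂ A i : Fin n → ℂ))) t

theorem HA_eq (b : Basis ι ℂ A) (t : ℝ) : HA V A t = hh (gr V (fun i => (b i : Fin n → ℂ))) t := by
  unfold HA hh
  rw [gg_basis V (finBasis ℂ A) b]
  congr 2
  rw [← Fintype.card_congr ((finBasis ℂ A).indexEquiv b)]

/-- positivity on a subspace -/
def PosOn (A : Submodule ℂ (Fin n → ℂ)) : Prop := ∀ x ∈ A, x ≠ 0 → 0 < (sf V x x).re

variable {V}

theorem PosOn.gram (hA : PosOn V A) (b : Basis ι ℂ A) : PosF (gr V (fun i => (b i : Fin n → ℂ))) := by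
  intro x hx
  rw [← sf_sum]
  have h1 : (∑ i, x i • (b i : Fin n → ℂ)) = ((∑ i, x i • b i : A) : Fin n → ℂ) := by
    simp
  rw [h1]
  refine hA _ (Submodule.coe_mem _) fun h2 => hx ?_
  have h3 : ∑ i, x i • b i = 0 := Subtype.ext h2
  ext i
  exact Fintype.linearIndependent_iff.mp b.linearIndependent x h3 i

theorem PosOn.mono (hA : PosOn V A) (h : I ≤ A) : PosOn V I := fun x hx => hA x (h hx)

theorem HA_ne (hA : PosOn V A) : ∀ᵐ t : ℝ, HA V A t ≠ 0 := by
  have hp := hA.gram (finBasis ℂ A)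
  have h1 : fp (gr V (fun i => (finBasis ℂ A i : Fin n → ℂ))) ≠ 0 := by
    intro h
    have h2 := ff_ne hp (z := 0) (by simp)
    rw [← fp_eval, h] at h2
    simp at h2
  have h3 : ∀ᵐ t : ℝ, (1 + X : ℂ[X]).eval (ez t) ≠ 0 := ae_eval_ne _ (by
    intro h
    have := congrArg (eval 0) h
    simp at this)
  filter_upwards [ae_eval_ne _ h1, h3] with t h4 h5
  rw [fp_eval] at h4
  rw [eval_add, eval_one, eval_X] at h5
  unfold HA hh gg
  have h6 := ff_ne hp (z := 0) (by simp)
  refine div_ne_zero (norm_ne_zero_iff.mpr (div_ne_zero h4 h6)) (pow_ne_zero _ (norm_ne_zero_iff.mpr h5))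

theorem HA_nonneg (t : ℝ) : 0 ≤ HA V A t := by
  unfold HA hh
  positivity

theorem sub_step (hA : PosOn V A) (hIA : I ≤ A) (v : Fin n → ℂ) (hvA : v ∈ A) (hvI : v ∉ I)
    (hsp : A ≤ I ⊔ Submodule.span ℂ {v}) :
    Dom (fun t => HA V A t / HA V I t) (4 * Real.log 2) ∧
    Dom (fun t => HA V I t / HA V A t) (4 * Real.log 2) := by
  have hli : ∀ (c : ℂ), ∀ x ∈ I, c • v + x = 0 → c = 0 := by
    intro c x hx h
    by_contra hc
    apply hvI
    have h1 : v = -(c⁻¹ • x) := by
      have h2 : c • v = -x := by rw [← add_eq_zero_iff_eq_neg]; exact h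
      calc v = c⁻¹ • (c • v) := by rw [smul_smul, inv_mul_cancel₀ hc, one_smul]
        _ = -(c⁻¹ • x) := by rw [h2, smul_neg]
    rw [h1]
    exact I.neg_mem (I.smul_mem _ hx)
  have hsp' : ∀ z ∈ A, ∃ c : ℂ, z + c • v ∈ I := by
    intro z hz
    obtain ⟨y, hy, w, hw, h⟩ := Submodule.mem_sup.mp (hsp hz)
    obtain ⟨c, rfl⟩ := Submodule.mem_span_singleton.mp hw
    refine ⟨-c, ?_⟩
    rw [← h]
    have : y + c • v + -c • v = y := by
      rw [neg_smul]
      abel
    rw [this]
    exact hy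
  set B := Basis.mkFinConsOfLE v hvA (finBasis ℂ I) hIA hli hsp' with hB
  have h1 : ∀ t, HA V A t = hh (gr V (fun i => (B i : Fin n → ℂ))) t := fun t => HA_eq V B t
  have h2 : tl (gr V (fun i => (B i : Fin n → ℂ))) =
      gr V (fun i => (finBasis ℂ I i : Fin n → ℂ)) := by
    ext i j
    simp [tl, gr, hB, Basis.coe_mkFinConsOfLE]
  have h3 := one_step (hA.gram B)
  rw [h2] at h3
  constructor
  · refine dom_congr h3.1 (Eventually.of_forall fun t => ?_)
    rw [h1]
    rfl
  · refine dom_congr h3.2 (Eventually.of_forall fun t => ?_)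
    rw [h1]
    rfl

theorem sub_chain (hA : PosOn V A) (k : ℕ) : ∀ I : Submodule ℂ (Fin n → ℂ), I ≤ A →
    finrank ℂ A = finrank ℂ I + k →
    Dom (fun t => HA V A t / HA V I t) (Real.log 2 + k * (4 * Real.log 2)) ∧
    Dom (fun t => HA V I t / HA V A t) (Real.log 2 + k * (4 * Real.log 2)) := by
  induction k with
  | zero =>
    intro I hI hk
    have h1 : I = A := Submodule.eq_of_le_of_finrank_eq hI (by omega)
    subst h1
    have h2 : ∀ᵐ t : ℝ, HA V I t / HA V I t = 1 := by
      filter_upwards [HA_ne hA] with t ht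
      exact div_self ht
    simp only [Nat.cast_zero, zero_mul, add_zero]
    exact ⟨dom_congr dom_one h2, dom_congr dom_one h2⟩
  | succ k ih =>
    intro I hI hk
    have h1 : I < A := by
      refine lt_of_le_of_ne hI fun h => ?_
      rw [h] at hk
      omega
    obtain ⟨v, hvA, hvI⟩ := Set.exists_of_ssubset h1
    set J := I ⊔ Submodule.span ℂ {v} with hJ
    have hIJ : I ≤ J := le_sup_left
    have hJA : J ≤ A := sup_le hI (by
      rw [Submodule.span_singleton_le_iff_mem]
      exact hvA)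
    have hvJ : v ∈ J := Submodule.mem_sup_right (Submodule.mem_span_singleton_self v)
    have hfr : finrank ℂ J = finrank ℂ I + 1 := by
      have h2 : finrank ℂ I < finrank ℂ J := Submodule.finrank_lt_finrank_of_lt
        (lt_of_le_of_ne hIJ fun h => hvI (h ▸ hvJ))
      have h3 := Submodule.finrank_add_le_finrank_add_finrank I (Submodule.span ℂ {v})
      have h4 : finrank ℂ (Submodule.span ℂ {v}) ≤ 1 := by
        refine (finrank_span_le_card _).trans ?_
        simp
      rw [← hJ] at h3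
      omega
    obtain ⟨s1, s2⟩ := sub_step (hA.mono hJA) hIJ v hvJ hvI le_rfl
    obtain ⟨c1, c2⟩ := ih J hJA (by omega)
    have hcast : Real.log 2 + ((k + 1 : ℕ) : ℝ) * (4 * Real.log 2) =
        Real.log 2 + k * (4 * Real.log 2) + 4 * Real.log 2 := by
      push_cast
      ring
    rw [hcast]
    constructor
    · refine dom_congr (dom_mul c1 s1) ?_
      filter_upwards [HA_ne (hA.mono hJA)] with t ht
      field_simp
    · refine dom_congr (dom_mul c2 s2) ?_
      filter_upwards [HA_ne (hA.mono hJA)] with t ht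
      field_simp

end

end Pool.Agent.L0h53.SC
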