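import Mathlib
import Pool.Agent.L0h53.SC.C

/-!
# Pencils with simple zeros
-/

set_option autoImplicit false
set_option linter.unusedSectionVars false

namespace Pool.Agent.L0h53.SC

open MeasureTheory Polynomial Filter Matrix Module
open Pool.Agent.H261R2.CM
open Pool.Agent.W242.IM (ae_eval_ne)
open Pool.Agent.Y820.LB

noncomputable section

variable {n : ℕ} {V : Matrix (Fin n) (Fin n) ℂ}

/-- a family of eigenvectors -/
structure Eig (V : Matrix (Fin n) (Fin n) ℂ) (ι : Type*) [Fintype ι] [DecidableEq ι] where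
  ζ : ι → ℂ
  inj : Function.Injective ζ
  x : ι → Fin n → ℂ
  ne : ∀ i, x i ≠ 0
  ker : ∀ i, (ζ i • V + Vᴴ) *ᵥ x i = 0

variable {ι : Type*} [Fintype ι] [DecidableEq ι]

theorem Eig.rel (e : Eig V ι) (i l : ι) :
    sf V (e.x l) (e.x i) * (1 - star (e.ζ l) * e.ζ i) = 0 ∧
    star (sf V (e.x i) (e.x l)) = -(e.ζ i * sf V (e.x l) (e.x i)) := by
  have h1 := pencil_form V (e.ζ i) (e.x l) (e.x i)
  have h2 := pencil_form V (e.ζ l) (e.x i) (e.x l)
  rw [e.ker, dotProduct_zero] at h1 h2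
  set p := sf V (e.x l) (e.x i) with hp
  set q := sf V (e.x i) (e.x l) with hq
  have h3 : star q = -(e.ζ i * p) := by linear_combination -h1
  have h4 : star p = -(e.ζ l * q) := by linear_combination -h2
  refine ⟨?_, h3⟩
  have h5 : p = -(star (e.ζ l) * star q) := by
    rw [← star_star p, h4, star_neg, star_mul']
  rw [h3] at h5
  linear_combination h5

theorem Eig.diag (e : Eig V ι) (T : ι → Prop) [DecidablePred T]
    (hT : ∀ i l, T i → T l → i ≠ l → star (e.ζ l) * e.ζ i ≠ 1) :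
    gr V (fun i : {i // T i} => e.x i) =
      Matrix.diagonal (fun i : {i // T i} => sf V (e.x i) (e.x i)) := by
  ext l i
  rw [Matrix.diagonal_apply]
  split_ifs with h
  · subst h
    rfl
  · show sf V (e.x l) (e.x i) = 0
    have h1 := (e.rel i l).1
    refine (mul_eq_zero.mp h1).resolve_right fun h2 => ?_
    refine hT i l i.2 l.2 (fun h3 => h (Subtype.ext h3.symm)) ?_
    linear_combination -h2

theorem Eig.li (e : Eig V ι) (hV : V.det ≠ 0) : LinearIndependent ℂ e.x := by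
  have hu : IsUnit V.det := isUnit_iff_ne_zero.mpr hV
  refine Module.End.eigenvectors_linearIndependent' (Matrix.mulVecLin (-(V⁻¹ * Vᴴ))) e.ζ e.inj e.x ?_
  intro i
  rw [Module.End.hasEigenvector_iff, Module.End.mem_eigenspace_iff]
  refine ⟨?_, e.ne i⟩
  have h1 := e.ker i
  rw [Matrix.add_mulVec, Matrix.smul_mulVec] at h1
  rw [Matrix.mulVecLin_apply, Matrix.neg_mulVec, ← Matrix.mulVec_mulVec]
  have h2 : Vᴴ *ᵥ e.x i = -(e.ζ i • (V *ᵥ e.x i)) := by
    rw [eq_neg_iff_add_eq_zero, add_comm]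
    exact h1
  rw [h2, Matrix.mulVec_neg, neg_neg, Matrix.mulVec_smul, Matrix.mulVec_mulVec,
    Matrix.nonsing_inv_mul _ hu, Matrix.one_mulVec]

/-- the span of a part of the eigenvectors -/
def Eig.sp (e : Eig V ι) (T : ι → Prop) [DecidablePred T] : Submodule ℂ (Fin n → ℂ) :=
  Submodule.span ℂ (Set.range fun i : {i // T i} => e.x i)

/-- its basis -/
def Eig.ba (e : Eig V ι) (hV : V.det ≠ 0) (T : ι → Prop) [DecidablePred T] :
    Basis {i // T i} ℂ (e.sp T) :=
  Basis.span ((e.li hV).comp _ Subtype.val_injective)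

theorem Eig.ba_apply (e : Eig V ι) (hV : V.det ≠ 0) (T : ι → Prop) [DecidablePred T]
    (i : {i // T i}) : (e.ba hV T i : Fin n → ℂ) = e.x i :=
  congrArg Subtype.val (Basis.span_apply ((e.li hV).comp _ Subtype.val_injective) i)

theorem Eig.finrank_sp (e : Eig V ι) (hV : V.det ≠ 0) (T : ι → Prop) [DecidablePred T] :
    finrank ℂ (e.sp T) = Fintype.card {i // T i} :=
  finrank_eq_card_basis (e.ba hV T)

theorem sf_diagonal {κ : Type*} [Fintype κ] [DecidableEq κ] (a p : κ → ℂ) :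
    (sf (Matrix.diagonal a) p p).re = ∑ i, Complex.normSq (p i) * (a i).re := by
  unfold sf
  rw [dotProduct, Complex.re_sum]
  refine Finset.sum_congr rfl fun i _ => ?_
  rw [Matrix.mulVec_diagonal]
  show (starRingEnd ℂ (p i) * (a i * p i)).re = _
  have h : starRingEnd ℂ (p i) * (a i * p i) = ((Complex.normSq (p i) : ℝ) : ℂ) * a i := by
    rw [← Complex.mul_conj]
    ring
  rw [h, Complex.re_ofReal_mul]

theorem Eig.form (e : Eig V ι) (hV : V.det ≠ 0) (T : ι → Prop) [DecidablePred T]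
    (hT : ∀ i l, T i → T l → i ≠ l → star (e.ζ l) * e.ζ i ≠ 1) (y : Fin n → ℂ) (hy : y ∈ e.sp T) :
    ∃ p : {i // T i} → ℂ, y = ∑ i, p i • e.x i ∧
      (sf V y y).re = ∑ i, Complex.normSq (p i) * (sf V (e.x i) (e.x i)).re := by
  have h1 := (e.ba hV T).sum_repr ⟨y, hy⟩
  have h2 := congrArg (Subtype.val) h1
  rw [Submodule.coe_sum] at h2
  simp only [Submodule.coe_smul, e.ba_apply hV T] at h2
  refine ⟨(e.ba hV T).repr ⟨y, hy⟩, h2.symm, ?_⟩
  generalize ((e.ba hV T).repr ⟨y, hy⟩ : {i // T i} → ℂ) = p at h2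
  rw [← h2, sf_sum V (fun i : {i // T i} => e.x i) p p, e.diag T hT, sf_diagonal]

/-- a nonpositive part of the eigenvectors is small -/
theorem Eig.card_le (e : Eig V ι) (hV : V.det ≠ 0) (T : ι → Prop) [DecidablePred T]
    (hT : ∀ i l, T i → T l → i ≠ l → star (e.ζ l) * e.ζ i ≠ 1)
    (hn : ∀ i, T i → (sf V (e.x i) (e.x i)).re ≤ 0)
    {U : Submodule ℂ (Fin n → ℂ)} (hU : PosOn V U) {k : ℕ} (hk : finrank ℂ U + k = n) :
    Fintype.card {i // T i} ≤ k := by
  have hd : Disjoint (e.sp T) U := by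
    rw [Submodule.disjoint_def]
    intro y hy hyU
    by_contra hy0
    obtain ⟨p, -, h2⟩ := e.form hV T hT y hy
    have h3 := hU y hyU hy0
    rw [h2] at h3
    have h4 : ∑ i : {i // T i}, Complex.normSq (p i) * (sf V (e.x i) (e.x i)).re ≤ 0 :=
      Finset.sum_nonpos fun i _ => mul_nonpos_of_nonneg_of_nonpos (Complex.normSq_nonneg _) (hn i i.2)
    linarith
  have h1 := Submodule.finrank_add_finrank_le_of_disjoint hd
  rw [Module.finrank_fin_fun, e.finrank_sp hV T] at h1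
  omega

theorem gg_diagonal {κ : Type*} [Fintype κ] [DecidableEq κ] (a ζ : κ → ℂ)
    (h : ∀ i, star (a i) = -(ζ i * a i)) (ha : ∀ i, a i ≠ 0) (hζ : ∀ i, ζ i ≠ 0) (z : ℂ) :
    gg (Matrix.diagonal a) z = ∏ i, (1 - z / ζ i) := by
  have h1 : ∀ z, ff (Matrix.diagonal a) z = ∏ i, (a i * (z - ζ i)) := by
    intro z
    unfold ff
    rw [Matrix.diagonal_conjTranspose, ← Matrix.diagonal_smul, Matrix.diagonal_add,
      Matrix.det_diagonal]
    refine Finset.prod_congr rfl fun i _ => ?_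
    rw [Pi.star_apply, h]
    simp only [Pi.smul_apply, smul_eq_mul]
    ring
  unfold gg
  rw [h1, h1, ← Finset.prod_div_distrib]
  refine Finset.prod_congr rfl fun i _ => ?_
  have := ha i
  have := hζ i
  field_simp
  ring

/-- the positive part -/
theorem Eig.HA_pos (e : Eig V ι) (hV : V.det ≠ 0) (hζ : ∀ i, e.ζ i ≠ 0) (T : ι → Prop)
    [DecidablePred T]
    (hT : ∀ i l, T i → T l → i ≠ l → star (e.ζ l) * e.ζ i ≠ 1)
    (hn : ∀ i, T i → 0 < (sf V (e.x i) (e.x i)).re) :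
    PosOn V (e.sp T) ∧
    ∀ t, HA V (e.sp T) t = ∏ i : {i // T i}, (‖1 - ez t / e.ζ i‖ / ‖1 + ez t‖) := by
  constructor
  · intro y hy hy0
    obtain ⟨p, h1, h2⟩ := e.form hV T hT y hy
    rw [h2]
    refine Finset.sum_pos' (fun i _ => mul_nonneg (Complex.normSq_nonneg _) (hn i i.2).le) ?_
    by_contra hcon
    push Not at hcon
    apply hy0
    rw [h1]
    refine Finset.sum_eq_zero fun i _ => ?_
    have h3 := hcon i (Finset.mem_univ i)
    have h4 : p i = 0 := by
      by_contra h5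
      have h6 : 0 < Complex.normSq (p i) := Complex.normSq_pos.mpr h5
      have := mul_pos h6 (hn i i.2)
      linarith
    rw [h4, zero_smul]
  · intro t
    rw [HA_eq V (e.ba hV T)]
    have h1 : gr V (fun i => ((e.ba hV T) i : Fin n → ℂ)) =
        Matrix.diagonal (fun i : {i // T i} => sf V (e.x i) (e.x i)) := by
      rw [← e.diag T hT]
      ext i j
      simp only [gr, Matrix.of_apply, e.ba_apply hV T]
    rw [h1]
    unfold hh
    rw [gg_diagonal (fun i : {i // T i} => sf V (e.x i) (e.x i)) (fun i => e.ζ i)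
      (fun i => (e.rel i i).2) (fun i h => by
        have := hn i i.2
        simp only [h, Complex.zero_re, lt_irrefl] at this) (fun i => hζ i)]
    rw [norm_prod, Finset.prod_div_distrib, Finset.prod_const, Finset.card_univ]

theorem orth {ζ ζ' : ℂ} (h : ζ ≠ ζ')
    (h' : (‖ζ‖ ≤ 1 ∧ ‖ζ'‖ ≤ 1) ∨ (1 ≤ ‖ζ‖ ∧ 1 ≤ ‖ζ'‖)) : star ζ' * ζ ≠ 1 := by
  intro h1
  have h2 : ‖ζ'‖ * ‖ζ‖ = 1 := by
    have := congrArg norm h1
    rwa [norm_mul, norm_star, norm_one] at this
  have h3 : ‖ζ'‖ = 1 := by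
    rcases h' with h' | h'
    · nlinarith [norm_nonneg ζ, norm_nonneg ζ']
    · nlinarith [norm_nonneg ζ, norm_nonneg ζ']
  apply h
  have h4 : ζ' * star ζ' = 1 := by
    show ζ' * starRingEnd ℂ ζ' = 1
    rw [Complex.mul_conj, Complex.normSq_eq_norm_sq, h3]
    simp
  calc ζ = ζ' * star ζ' * ζ := by rw [h4, one_mul]
    _ = ζ' * (star ζ' * ζ) := by ring
    _ = ζ' := by rw [h1, mul_one]

theorem dom_prod {κ : Type*} (s : Finset κ) (f : κ → ℝ → ℝ) (c : ℝ) (h : ∀ i ∈ s, Dom (f i) c) :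
    Dom (fun t => ∏ i ∈ s, f i t) (Real.log 2 + s.card * c) := by
  classical
  induction s using Finset.induction_on with
  | empty => simpa using dom_one
  | insert i s hi ih =>
    have h1 := ih fun j hj => h j (Finset.mem_insert_of_mem hj)
    have h2 := dom_mul h1 (h i (Finset.mem_insert_self i s))
    have h3 : Real.log 2 + ((insert i s).card : ℝ) * c = Real.log 2 + s.card * c + c := by
      rw [Finset.card_insert_of_notMem hi]
      push_cast
      ring
    rw [h3]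
    refine dom_congr h2 (Eventually.of_forall fun t => ?_)
    rw [Finset.prod_insert hi, mul_comm]

theorem dom_factor (ζ : ℂ) :
    Dom (fun t => ‖ez t - ζ‖ / max 1 ‖ζ‖ / ‖1 + ez t‖) (2 * Real.log 2) := by
  have h := dom_plus 2 (by norm_num)
  rw [show (2:ℝ) + 2 = 2 ^ 2 by norm_num, Real.log_pow, Nat.cast_ofNat] at h
  refine h.mono (Eventually.of_forall fun t => ⟨by positivity, ?_⟩)
  refine div_le_div_of_nonneg_right ?_ (norm_nonneg _)
  rw [div_le_iff₀ (by positivity)]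
  refine (norm_sub_le _ _).trans ?_
  rw [D_norm_ez]
  linarith [le_max_left 1 ‖ζ‖, le_max_right 1 ‖ζ‖]

theorem dom_factor_inv (ζ : ℂ) :
    Dom (fun t => (‖ez t - ζ‖ / max 1 ‖ζ‖ / ‖1 + ez t‖)⁻¹) (2 * Real.log 2) := by
  set μ := max 1 ‖ζ‖ with hμ
  have hμ1 : 1 ≤ μ := le_max_left _ _
  have hζμ : ‖ζ‖ ≤ μ := le_max_right _ _
  have hM : (X - C ζ).mahlerMeasure = μ := mahlerMeasure_X_sub_C ζ
  refine ⟨fun t => Real.log (4 * μ) - Real.log ‖(X - C ζ).eval (ez t)‖,
    intervalIntegrable_const.sub (integrable_log _), ?_, ?_⟩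
  · filter_upwards [ae_eval_ne (X - C ζ) (X_sub_C_ne_zero ζ)] with t ht
    rw [eval_sub, eval_X, eval_C] at ht ⊢
    have h1 : 0 < ‖ez t - ζ‖ := norm_pos_iff.mpr ht
    refine ⟨by positivity, ?_⟩
    rw [← Real.log_div (by positivity) h1.ne']
    refine Real.log_le_log (by positivity) ?_
    have h2 : ‖ez t - ζ‖ ≤ 2 * μ := by
      refine (norm_sub_le _ _).trans ?_
      rw [D_norm_ez]
      linarith
    have h3 : ‖1 + ez t‖ ≤ 2 := by
      refine (norm_add_le _ _).trans ?_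
      rw [norm_one, D_norm_ez]
      norm_num
    have h4 : (‖ez t - ζ‖ / μ / ‖1 + ez t‖)⁻¹ = μ * ‖1 + ez t‖ / ‖ez t - ζ‖ := by
      rw [inv_div, div_div_eq_mul_div]
      ring
    rw [h4, le_div_iff₀ h1, add_mul, one_mul, div_mul_cancel₀ _ h1.ne']
    nlinarith [mul_le_mul_of_nonneg_left h3 (by linarith : (0:ℝ) ≤ μ)]
  · rw [intervalIntegral.integral_sub intervalIntegrable_const (integrable_log _), ← log_mahler, hM,
      Real.log_mul (by norm_num) (by positivity)]
    have : Real.log 4 = 2 * Real.log 2 := by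
      rw [show (4:ℝ) = 2 ^ 2 by norm_num, Real.log_pow]
      push_cast
      ring
    simp only [intervalIntegral.integral_const, sub_zero, one_smul]
    linarith

/-- the determinant of `z W + W*` divided by its Mahler measure and a power of `1 + z` -/
def mh {κ : Type*} [Fintype κ] [DecidableEq κ] (W : Matrix κ κ ℂ) (t : ℝ) : ℝ :=
  ‖ff W (ez t)‖ / (fp W).mahlerMeasure / ‖1 + ez t‖ ^ Fintype.card κ

/-- the constant -/
def CK (k : ℕ) : ℝ := 3 * Real.log 2 + 2 * k * (2 * Real.log 2) + 3 * k * (4 * Real.log 2)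

theorem Eig.generic (e : Eig V ι) (hV : V.det ≠ 0) (hcard : Fintype.card ι = n) (c : ℂ)
    (hfac : ∀ z, ff V z = c * ∏ i, (z - e.ζ i))
    (hM : (fp V).mahlerMeasure = ‖c‖ * ∏ i, max 1 ‖e.ζ i‖)
    {U : Submodule ℂ (Fin n → ℂ)} (hU : PosOn V U) {k : ℕ} (hk : finrank ℂ U + k = n) :
    Dom (fun t => mh V t / HA V U t) (CK k) ∧ Dom (fun t => HA V U t / mh V t) (CK k) := by
  classical
  have hc : c ≠ 0 := by
    rintro rfl
    have h1 := hfac 0
    rw [zero_mul, ff_zero] at h1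
    exact hV (star_eq_zero.mp h1)
  have hζ0 : ∀ i, e.ζ i ≠ 0 := by
    intro i h
    have h1 := hfac 0
    rw [Finset.prod_eq_zero (Finset.mem_univ i) (by rw [h, sub_zero]), mul_zero, ff_zero] at h1
    exact hV (star_eq_zero.mp h1)
  set T : ι → Prop := fun i => ‖e.ζ i‖ = 1 ∧ 0 < (sf V (e.x i) (e.x i)).re with hT
  set N₁ : ι → Prop := fun i => ‖e.ζ i‖ ≤ 1 ∧ (sf V (e.x i) (e.x i)).re ≤ 0 with hN1
  set N₂ : ι → Prop := fun i => 1 ≤ ‖e.ζ i‖ ∧ (sf V (e.x i) (e.x i)).re ≤ 0 with hN2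
  have hoT : ∀ i l, T i → T l → i ≠ l → star (e.ζ l) * e.ζ i ≠ 1 := fun i l hi hl hil =>
    orth (fun h => hil (e.inj h)) (Or.inl ⟨hi.1.le, hl.1.le⟩)
  have ho1 : ∀ i l, N₁ i → N₁ l → i ≠ l → star (e.ζ l) * e.ζ i ≠ 1 := fun i l hi hl hil =>
    orth (fun h => hil (e.inj h)) (Or.inl ⟨hi.1, hl.1⟩)
  have ho2 : ∀ i l, N₂ i → N₂ l → i ≠ l → star (e.ζ l) * e.ζ i ≠ 1 := fun i l hi hl hil =>
    orth (fun h => hil (e.inj h)) (Or.inr ⟨hi.1, hl.1⟩)
  have c1 := e.card_le hV N₁ ho1 (fun i hi => hi.2) hU hk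
  have c2 := e.card_le hV N₂ ho2 (fun i hi => hi.2) hU hk
  have hcT : Fintype.card {i // ¬ T i} ≤ 2 * k := by
    have h1 : (Finset.univ.filter fun i => ¬ T i) ⊆
        (Finset.univ.filter fun i => N₁ i) ∪ (Finset.univ.filter fun i => N₂ i) := by
      intro i hi
      rw [Finset.mem_filter] at hi
      rw [Finset.mem_union, Finset.mem_filter, Finset.mem_filter]
      have h2 : ‖e.ζ i‖ ≠ 1 → (sf V (e.x i) (e.x i)).re = 0 := by
        intro h3
        have h4 := (e.rel i i).1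
        have h5 : (1 : ℂ) - star (e.ζ i) * e.ζ i ≠ 0 := by
          intro h6
          apply h3
          have h7 : star (e.ζ i) * e.ζ i = 1 := by linear_combination -h6
          have h8 := congrArg norm h7
          rw [norm_mul, norm_star, norm_one] at h8
          nlinarith [norm_nonneg (e.ζ i)]
        rw [(mul_eq_zero.mp h4).resolve_right h5]
        simp
      by_cases h3 : ‖e.ζ i‖ = 1
      · left
        refine ⟨Finset.mem_univ _, h3.le, ?_⟩
        by_contra h4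
        push Not at h4
        exact hi.2 ⟨h3, h4⟩
      · rcases le_total ‖e.ζ i‖ 1 with h4 | h4
        · exact Or.inl ⟨Finset.mem_univ _, h4, (h2 h3).le⟩
        · exact Or.inr ⟨Finset.mem_univ _, h4, (h2 h3).le⟩
    rw [Fintype.card_subtype] at c1 c2 ⊢
    refine (Finset.card_le_card h1).trans ((Finset.card_union_le _ _).trans ?_)
    omega
  have hTn : Fintype.card {i // T i} + Fintype.card {i // ¬ T i} = n := by
    refine Eq.trans ?_ hcard
    rw [Fintype.card_subtype_compl]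
    have := Fintype.card_subtype_le T
    omega
  obtain ⟨hP, hHA⟩ := e.HA_pos hV hζ0 T hoT (fun i hi => hi.2)
  -- the whole space
  have hwhole : ∀ t, mh V t = HA V (e.sp T) t *
      ∏ i : {i // ¬ T i}, (‖ez t - e.ζ i‖ / max 1 ‖e.ζ i‖ / ‖1 + ez t‖) := by
    intro t
    have h1 : HA V (e.sp T) t =
        ∏ i : {i // T i}, (‖ez t - e.ζ i‖ / max 1 ‖e.ζ i‖ / ‖1 + ez t‖) := by
      rw [hHA]
      refine Finset.prod_congr rfl fun i _ => ?_
      have h2 : ‖e.ζ i‖ = 1 := i.2.1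
      have h3 : (1 : ℂ) - ez t / e.ζ i = (e.ζ i - ez t) / e.ζ i := by
        have := hζ0 i
        field_simp
      rw [h3, norm_div, h2, max_self, norm_sub_rev]
    rw [h1, Fintype.prod_subtype_mul_prod_subtype T
      (fun i => ‖ez t - e.ζ i‖ / max 1 ‖e.ζ i‖ / ‖1 + ez t‖),
      Finset.prod_div_distrib, Finset.prod_div_distrib, Finset.prod_const, Finset.card_univ, hcard]
    unfold mh
    rw [hfac, hM, norm_mul, norm_prod, Fintype.card_fin,
      mul_div_mul_left _ _ (norm_ne_zero_iff.mpr hc)]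
  -- the intersection
  set I := e.sp T ⊓ U with hI
  have f1 := Submodule.finrank_sup_add_finrank_inf_eq (e.sp T) U
  rw [← hI] at f1
  have f2 : finrank ℂ ↥(e.sp T ⊔ U) ≤ n := by
    have := Submodule.finrank_le (e.sp T ⊔ U)
    rwa [Module.finrank_fin_fun] at this
  have f3 := e.finrank_sp hV T
  have g1 : finrank ℂ I ≤ finrank ℂ (e.sp T) := Submodule.finrank_mono inf_le_left
  have g2 : finrank ℂ I ≤ finrank ℂ U := Submodule.finrank_mono inf_le_right
  obtain ⟨s1, hs1⟩ := Nat.exists_eq_add_of_le g1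
  obtain ⟨s2, hs2⟩ := Nat.exists_eq_add_of_le g2
  have d1 := (sub_chain hP s1 I inf_le_left hs1).1
  have d2 := (sub_chain hU s2 I inf_le_right hs2).2
  have d3 := dom_prod (Finset.univ : Finset {i // ¬ T i})
    (fun i t => ‖ez t - e.ζ i‖ / max 1 ‖e.ζ i‖ / ‖1 + ez t‖) (2 * Real.log 2)
    (fun i _ => dom_factor _)
  have d4 := dom_mul (dom_mul d1 d2) d3
  have d1' := (sub_chain hP s1 I inf_le_left hs1).2
  have d2' := (sub_chain hU s2 I inf_le_right hs2).1
  have d3' := dom_prod (Finset.univ : Finset {i // ¬ T i})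
    (fun i t => (‖ez t - e.ζ i‖ / max 1 ‖e.ζ i‖ / ‖1 + ez t‖)⁻¹) (2 * Real.log 2)
    (fun i _ => dom_factor_inv _)
  have d4' := dom_mul (dom_mul d1' d2') d3'
  have hs : s1 + s2 ≤ 3 * k := by omega
  have hl2 : 0 ≤ Real.log 2 := Real.log_nonneg (by norm_num)
  have d5 : Dom (fun t => mh V t / HA V U t) _ := dom_congr d4 (by
    filter_upwards [HA_ne (hU.mono inf_le_right : PosOn V I)] with t ht
    rw [hwhole]
    generalize (∏ i : {i // ¬ T i}, (‖ez t - e.ζ i‖ / max 1 ‖e.ζ i‖ / ‖1 + ez t‖)) = R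
    field_simp)
  have d5' : Dom (fun t => HA V U t / mh V t) _ := dom_congr d4' (by
    filter_upwards [HA_ne (hU.mono inf_le_right : PosOn V I)] with t ht
    rw [hwhole, Finset.prod_inv_distrib]
    generalize (∏ i : {i // ¬ T i}, (‖ez t - e.ζ i‖ / max 1 ‖e.ζ i‖ / ‖1 + ez t‖)) = R
    field_simp)
  have e1 : (Fintype.card {i // ¬ T i} : ℝ) ≤ 2 * k := by exact_mod_cast hcT
  have e2 : (s1 : ℝ) + s2 ≤ 3 * k := by exact_mod_cast hs
  constructor
  · refine d5.le ?_
    unfold CK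
    rw [Finset.card_univ]
    nlinarith [mul_le_mul_of_nonneg_right e1 hl2, mul_le_mul_of_nonneg_right e2 hl2]
  · refine d5'.le ?_
    unfold CK
    rw [Finset.card_univ]
    nlinarith [mul_le_mul_of_nonneg_right e1 hl2, mul_le_mul_of_nonneg_right e2 hl2]

end

end Pool.Agent.L0h53.SC
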