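import Mathlib
import Pool.Agent.L0h53.SC.D

/-!
# Simple zeros for most members of a family; limits
-/

set_option autoImplicit false
set_option linter.unusedSectionVars false

namespace Pool.Agent.L0h53.SC

open MeasureTheory Polynomial Filter Matrix Module Topology
open Pool.Agent.H261R2.CM
open Pool.Agent.W242.IM (ae_eval_ne)
open Pool.Agent.Y820.LB

noncomputable section

variable {n : ℕ}

theorem fp_eq {ι : Type*} [Fintype ι] [DecidableEq ι] (W : Matrix ι ι ℂ) :
    fp W = det ((X : ℂ[X]) • W.map C + Wᴴ.map C) := by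
  unfold fp
  congr 1

theorem fp_natDegree_le (W : Matrix (Fin n) (Fin n) ℂ) : (fp W).natDegree ≤ n := by
  rw [fp_eq]
  refine (natDegree_det_X_add_C_le _ _).trans ?_
  rw [Fintype.card_fin]

theorem fp_coeff (W : Matrix (Fin n) (Fin n) ℂ) : (fp W).coeff n = W.det := by
  have h := coeff_det_X_add_C_card W Wᴴ
  rw [Fintype.card_fin, ← fp_eq] at h
  exact h

theorem fp_natDegree {W : Matrix (Fin n) (Fin n) ℂ} (hW : W.det ≠ 0) : (fp W).natDegree = n := by
  refine le_antisymm (fp_natDegree_le W) (le_natDegree_of_ne_zero ?_)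
  rw [fp_coeff]
  exact hW

/-- the eigenvectors from separability -/
theorem exists_eig {W : Matrix (Fin n) (Fin n) ℂ} (hW : W.det ≠ 0) (hs : (fp W).Separable) :
    ∃ e : Eig W {z : ℂ // z ∈ (fp W).roots.toFinset},
      Fintype.card {z : ℂ // z ∈ (fp W).roots.toFinset} = n ∧
      ∃ c : ℂ, (∀ z, ff W z = c * ∏ i, (z - e.ζ i)) ∧
        (fp W).mahlerMeasure = ‖c‖ * ∏ i, max 1 ‖e.ζ i‖ := by
  have hne : fp W ≠ 0 := by
    intro h
    have h1 := fp_coeff W
    rw [h, coeff_zero] at h1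
    exact hW h1.symm
  have hroot : ∀ i : {z : ℂ // z ∈ (fp W).roots.toFinset}, ff W i = 0 := by
    intro i
    rw [← fp_eval]
    have h1 := i.2
    rw [Multiset.mem_toFinset, mem_roots hne] at h1
    exact h1
  have hex : ∀ i : {z : ℂ // z ∈ (fp W).roots.toFinset}, ∃ v : Fin n → ℂ, v ≠ 0 ∧
      ((i : ℂ) • W + Wᴴ) *ᵥ v = 0 := fun i => Matrix.exists_mulVec_eq_zero_iff.mpr (hroot i)
  choose x hx1 hx2 using hex
  have hnd := nodup_roots hs
  have h2 : (fp W).roots = (fp W).roots.toFinset.val := by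
    rw [Multiset.toFinset_val, Multiset.dedup_eq_self.mpr hnd]
  refine ⟨⟨fun i => i, Subtype.val_injective, x, hx1, hx2⟩, ?_, (fp W).leadingCoeff, ?_, ?_⟩
  · rw [Fintype.card_coe, Multiset.toFinset_card_of_nodup hnd]
    have h1 := (IsAlgClosed.splits (fp W)).natDegree_eq_card_roots
    rw [← h1, fp_natDegree hW]
  · intro z
    have h1 := (IsAlgClosed.splits (fp W)).eq_prod_roots
    rw [← fp_eval]
    conv_lhs => rw [h1]
    rw [eval_mul, eval_C, eval_multiset_prod, Multiset.map_map]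
    congr 1
    show (Multiset.map (eval z ∘ fun x => X - C x) (fp W).roots).prod =
      ∏ i : {z : ℂ // z ∈ (fp W).roots.toFinset}, (z - (i : ℂ))
    rw [Finset.prod_coe_sort (fp W).roots.toFinset (fun i => z - i), Finset.prod, ← h2]
    refine congrArg Multiset.prod (Multiset.map_congr rfl fun a _ => ?_)
    simp
  · rw [mahlerMeasure_eq_leadingCoeff_mul_prod_roots]
    congr 1
    show (Multiset.map (fun a => max 1 ‖a‖) (fp W).roots).prod =
      ∏ i : {z : ℂ // z ∈ (fp W).roots.toFinset}, max 1 ‖(i : ℂ)‖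
    rw [Finset.prod_coe_sort (fp W).roots.toFinset (fun i => max 1 ‖i‖), Finset.prod, ← h2]

/-- the diagonal matrix -/
def DD (n : ℕ) : Matrix (Fin n) (Fin n) ℂ := Matrix.diagonal fun l => 1 + (l : ℕ) * Complex.I

theorem DD_ne (l : Fin n) : (1 + (l : ℕ) * Complex.I : ℂ) ≠ 0 := by
  intro h
  have := congrArg Complex.re h
  simp at this

theorem DD_det : (DD n).det ≠ 0 := by
  unfold DD
  rw [Matrix.det_diagonal]
  exact Finset.prod_ne_zero_iff.mpr fun l _ => DD_ne l

theorem DD_sep : (fp (DD n)).Separable := by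
  have h1 : fp (DD n) = C (∏ l : Fin n, (1 + (l : ℕ) * Complex.I : ℂ)) *
      ∏ l : Fin n, (X - C (-(starRingEnd ℂ (1 + (l : ℕ) * Complex.I)) / (1 + (l : ℕ) * Complex.I))) := by
    have h2 : (Matrix.of fun i j => X * C (DD n i j) + C (star (DD n j i)) :
        Matrix (Fin n) (Fin n) ℂ[X]) =
        Matrix.diagonal fun l : Fin n => X * C (1 + (l : ℕ) * Complex.I : ℂ) +
          C (starRingEnd ℂ (1 + (l : ℕ) * Complex.I)) := by
      ext i j : 2
      rw [Matrix.of_apply, Matrix.diagonal_apply, DD, Matrix.diagonal_apply, Matrix.diagonal_apply]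
      by_cases h : i = j
      · subst h
        simp
      · rw [if_neg h, if_neg h, if_neg (fun h' => h h'.symm)]
        simp
    unfold fp
    rw [h2, Matrix.det_diagonal, map_prod, ← Finset.prod_mul_distrib]
    refine Finset.prod_congr rfl fun l _ => ?_
    rw [mul_sub, ← C_mul, mul_div_cancel₀ _ (DD_ne l), C_neg]
    ring
  rw [h1]
  refine Separable.unit_mul (isUnit_C.mpr (isUnit_iff_ne_zero.mpr
    (Finset.prod_ne_zero_iff.mpr fun l _ => DD_ne l))) ?_
  rw [separable_prod_X_sub_C_iff]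
  intro l m h
  have h2 := DD_ne l
  have h3 := DD_ne m
  have h4 : starRingEnd ℂ (1 + (l : ℕ) * Complex.I) * (1 + (m : ℕ) * Complex.I) =
      starRingEnd ℂ (1 + (m : ℕ) * Complex.I) * (1 + (l : ℕ) * Complex.I) := by
    have h5 : -(starRingEnd ℂ (1 + (l : ℕ) * Complex.I)) / (1 + (l : ℕ) * Complex.I) =
      -(starRingEnd ℂ (1 + (m : ℕ) * Complex.I)) / (1 + (m : ℕ) * Complex.I) := h
    rw [div_eq_div_iff h2 h3] at h5
    linear_combination -h5
  have h6 := congrArg Complex.im h4
  simp only [Complex.mul_im, Complex.conj_re, Complex.conj_im, Complex.add_re, Complex.add_im,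
    Complex.one_re, Complex.one_im, Complex.mul_re, Complex.natCast_re, Complex.natCast_im,
    Complex.I_re, Complex.I_im] at h6
  have h7 : (l : ℕ) = (m : ℕ) := by
    have : ((l : ℕ) : ℝ) = (m : ℕ) := by nlinarith
    exact_mod_cast this
  exact Fin.ext h7

/-- the segment from `V` to `DD n` -/
def Ve (V : Matrix (Fin n) (Fin n) ℂ) (s : ℝ) : Matrix (Fin n) (Fin n) ℂ :=
  Matrix.of fun i j => (1 - (s : ℂ)) * V i j + (s : ℂ) * DD n i j

theorem Ve_zero (V : Matrix (Fin n) (Fin n) ℂ) : Ve V 0 = V := by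
  ext i j
  simp [Ve]

theorem Ve_one (V : Matrix (Fin n) (Fin n) ℂ) : Ve V 1 = DD n := by
  ext i j
  simp [Ve]

/-- the family of polynomials -/
def Qe (V : Matrix (Fin n) (Fin n) ℂ) : (ℂ[X])[X] :=
  (Matrix.of fun i j => X * C ((1 - X) * C (V i j) + X * C (DD n i j)) +
    C ((1 - X) * C (star (V j i)) + X * C (star (DD n j i)))).det

theorem Qe_map (V : Matrix (Fin n) (Fin n) ℂ) (s : ℝ) :
    (Qe V).map (evalRingHom (s : ℂ)) = fp (Ve V s) := by
  unfold Qe fp
  rw [← coe_mapRingHom, RingHom.map_det]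
  congr 1
  ext i j : 2
  have h : star ((1 - (s : ℂ)) * V j i + (s : ℂ) * DD n j i) =
      (1 - (s : ℂ)) * star (V j i) + (s : ℂ) * star (DD n j i) := by
    simp
  simp only [RingHom.mapMatrix_apply, Matrix.map_apply, Matrix.of_apply, Ve, coe_mapRingHom, h,
    Polynomial.map_add, Polynomial.map_mul, map_X, map_C, coe_evalRingHom, eval_add, eval_mul,
    eval_sub, eval_one, eval_X, eval_C]

theorem Qe_natDegree (V : Matrix (Fin n) (Fin n) ℂ) : (Qe V).natDegree ≤ n := by
  unfold Qe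
  have h : (Matrix.of fun i j => X * C ((1 - X) * C (V i j) + X * C (DD n i j)) +
      C ((1 - X) * C (star (V j i)) + X * C (star (DD n j i))) :
      Matrix (Fin n) (Fin n) (ℂ[X])[X]) =
      (X : (ℂ[X])[X]) • (Matrix.of fun i j => (1 - X) * C (V i j) + X * C (DD n i j) :
        Matrix (Fin n) (Fin n) ℂ[X]).map C +
      (Matrix.of fun i j => (1 - X) * C (star (V j i)) + X * C (star (DD n j i)) :
        Matrix (Fin n) (Fin n) ℂ[X]).map C := by
    ext i j : 2
    simp
  rw [h]
  refine (natDegree_det_X_add_C_le _ _).trans ?_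
  rw [Fintype.card_fin]

theorem eventually_ne (r : ℂ[X]) (hr0 : r ≠ 0) : ∀ᶠ s : ℝ in 𝓝[>] 0, r.eval (s : ℂ) ≠ 0 := by
  set F : Set ℝ := {s : ℝ | r.eval (s : ℂ) = 0} with hF
  have hfin : F.Finite := by
    have h1 : Set.Finite {z : ℂ | z ∈ r.roots.toFinset} := Finset.finite_toSet _
    refine (h1.preimage (f := fun s : ℝ => (s : ℂ)) (Complex.ofReal_injective.injOn)).subset ?_
    intro s hs
    simp only [Set.mem_preimage, Set.mem_ofPred_eq, Multiset.mem_toFinset, mem_roots hr0]
    exact hs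
  have hcl : (F \ {0})ᶜ ∈ 𝓝 (0 : ℝ) := by
    refine (hfin.subset Set.sdiff_subset).isClosed.isOpen_compl.mem_nhds ?_
    simp
  filter_upwards [mem_nhdsWithin_of_mem_nhds hcl, self_mem_nhdsWithin] with s hs hs0
  intro h
  exact hs ⟨h, fun h' => (ne_of_gt hs0) h'⟩

theorem det_family (V : Matrix (Fin n) (Fin n) ℂ) :
    ∀ᶠ s : ℝ in 𝓝[>] 0, (Ve V s).det ≠ 0 := by
  set r : ℂ[X] := (Matrix.of fun i j => (1 - X) * C (V i j) + X * C (DD n i j) :
    Matrix (Fin n) (Fin n) ℂ[X]).det with hr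
  have hmap : ∀ s : ℝ, r.eval (s : ℂ) = (Ve V s).det := by
    intro s
    rw [hr, ← coe_evalRingHom, RingHom.map_det]
    congr 1
    ext i j : 2
    simp [Ve]
    ring
  have hr0 : r ≠ 0 := by
    intro h
    have h1 := hmap 1
    rw [h, Ve_one, eval_zero] at h1
    exact DD_det h1.symm
  filter_upwards [eventually_ne r hr0] with s hs
  rwa [hmap] at hs

theorem sep_family (V : Matrix (Fin n) (Fin n) ℂ) :
    ∀ᶠ s : ℝ in 𝓝[>] 0, (fp (Ve V s)).Separable := by
  rcases Nat.eq_zero_or_pos n with hn | hn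
  · subst hn
    refine Eventually.of_forall fun s => ?_
    have : fp (Ve V s) = 1 := by
      unfold fp
      exact Matrix.det_isEmpty
    rw [this]
    exact separable_one
  set r : ℂ[X] := resultant (Qe V) (derivative (Qe V)) n (n - 1) with hr
  have hmap : ∀ s : ℝ, r.eval (s : ℂ) =
      resultant (fp (Ve V s)) (derivative (fp (Ve V s))) n (n - 1) := by
    intro s
    rw [hr, ← coe_evalRingHom, ← resultant_map_map, Qe_map, ← Polynomial.derivative_map, Qe_map]
  have hr1 : r.eval ((1 : ℝ) : ℂ) ≠ 0 := by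
    rw [hmap, Ve_one]
    have h1 : (fp (DD n)).natDegree = n := fp_natDegree DD_det
    have h2 : (derivative (fp (DD n))).natDegree = n - 1 := by
      rw [natDegree_derivative, h1]
    have h3 := resultant_ne_zero (fp (DD n)) (derivative (fp (DD n))) DD_sep
    rw [h1, h2] at h3
    exact h3
  have hr0 : r ≠ 0 := by
    intro h
    rw [h] at hr1
    simp at hr1
  have hgood : ∀ s : ℝ, r.eval (s : ℂ) ≠ 0 → (fp (Ve V s)).Separable := by
    intro s hs
    rw [hmap] at hs
    obtain ⟨p, q, -, -, h⟩ := exists_mul_add_mul_eq_C_resultant (m := n) (n := n - 1) (fp (Ve V s))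
      (derivative (fp (Ve V s))) (fp_natDegree_le _) ((natDegree_derivative_le _).trans (by
        have := fp_natDegree_le (Ve V s)
        omega)) (Or.inl (by omega))
    set ρ := resultant (fp (Ve V s)) (derivative (fp (Ve V s))) n (n - 1) with hρ
    refine ⟨C ρ⁻¹ * p, C ρ⁻¹ * q, ?_⟩
    have : C ρ⁻¹ * p * fp (Ve V s) + C ρ⁻¹ * q * derivative (fp (Ve V s)) =
        C ρ⁻¹ * (fp (Ve V s) * p + derivative (fp (Ve V s)) * q) := by ring
    rw [this, h, ← C_mul, inv_mul_cancel₀ hs, C_1]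
  filter_upwards [eventually_ne r hr0] with s hs
  exact hgood s hs

end

end Pool.Agent.L0h53.SC
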