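import Mathlib
import Pool.Agent.L0h53.SC.E

/-!
# The bound without genericity
-/

set_option autoImplicit false
set_option linter.unusedSectionVars false

namespace Pool.Agent.L0h53.SC

open MeasureTheory Polynomial Filter Matrix Module Topology
open Pool.Agent.H261R2.CM
open Pool.Agent.W242.IM (ae_eval_ne)
open Pool.Agent.Y820.LB

noncomputable section

/-- limits of dominated functions -/
theorem dom_lim (H : ℕ → ℝ → ℝ) (G : ℝ → ℝ) (c : ℝ) (hm : ∀ j, Measurable (H j)) (hG : Measurable G)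
    (hD : ∀ᶠ j in atTop, Dom (H j) c)
    (hlim : ∀ᵐ t : ℝ, Tendsto (fun j => H j t) atTop (𝓝 (G t))) : Dom G c := by
  obtain ⟨J, hJ⟩ := eventually_atTop.mp hD
  set f : ℕ → ℝ → ℝ := fun j t => Real.log (1 + H (J + j) t) with hf
  have hfm : ∀ j, Measurable (f j) := fun j => ((hm (J + j)).const_add 1).log
  set μ := (volume : Measure ℝ).restrict (Set.Ioc 0 1) with hμ
  have hnn : ∀ j, ∀ᵐ t : ℝ, 0 ≤ H (J + j) t := by
    intro j
    obtain ⟨g, h1, h2, h3⟩ := hJ (J + j) (by omega)
    filter_upwards [h2] with t ht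
    exact ht.1
  have hfj : ∀ j, Integrable (f j) μ ∧ ∫ t, f j t ∂μ ≤ c := by
    intro j
    obtain ⟨g, h1, h2, h3⟩ := hJ (J + j) (by omega)
    rw [intervalIntegrable_iff_integrableOn_Ioc_of_le zero_le_one] at h1
    rw [intervalIntegral.integral_of_le zero_le_one] at h3
    have h4 : ∀ᵐ t ∂μ, ‖f j t‖ ≤ g t := by
      refine ae_restrict_of_ae ?_
      filter_upwards [h2] with t ht
      rw [Real.norm_of_nonneg (Real.log_nonneg (by linarith [ht.1]))]
      exact ht.2
    have h5 : Integrable (f j) μ := Integrable.mono' h1 (hfm j).aestronglyMeasurable h4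
    refine ⟨h5, le_trans (integral_mono_ae h5 h1 ?_) h3⟩
    filter_upwards [h4] with t ht
    exact (Real.le_norm_self _).trans ht
  have hGnn : ∀ᵐ t : ℝ, 0 ≤ G t := by
    have h1 := ae_all_iff.mpr hnn
    filter_upwards [h1, hlim] with t h2 h3
    refine ge_of_tendsto ((tendsto_add_atTop_iff_nat J).mpr h3) (Eventually.of_forall fun j => ?_)
    have := h2 j
    rwa [add_comm] at this
  have hfl : ∀ᵐ t ∂μ, Tendsto (fun j => f j t) atTop (𝓝 (Real.log (1 + G t))) := by
    refine ae_restrict_of_ae ?_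
    filter_upwards [hlim, hGnn] with t h1 h2
    have h3 : Tendsto (fun j => H (J + j) t) atTop (𝓝 (G t)) := by
      have := (tendsto_add_atTop_iff_nat J).mpr h1
      simpa [add_comm] using this
    exact (h3.const_add 1).log (by linarith)
  have hc0 : 0 ≤ c := by
    have h1 := (hfj 0).2
    refine le_trans (integral_nonneg_of_ae ?_) h1
    refine ae_restrict_of_ae ?_
    filter_upwards [hnn 0] with t ht
    exact Real.log_nonneg (by linarith)
  have hlint : ∀ j, ∫⁻ t, ENNReal.ofReal (f j t) ∂μ ≤ ENNReal.ofReal c := by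
    intro j
    rw [← ofReal_integral_eq_lintegral_ofReal (hfj j).1 ?_]
    · exact ENNReal.ofReal_le_ofReal (hfj j).2
    · refine ae_restrict_of_ae ?_
      filter_upwards [hnn j] with t ht
      exact Real.log_nonneg (by linarith)
  have hfat : ∫⁻ t, ENNReal.ofReal (Real.log (1 + G t)) ∂μ ≤ ENNReal.ofReal c := by
    have h1 := lintegral_liminf_le (μ := μ) (u := (atTop : Filter ℕ))
      (f := fun j t => ENNReal.ofReal (f j t)) (fun j => (hfm j).ennreal_ofReal)
    have h2 : ∫⁻ t, ENNReal.ofReal (Real.log (1 + G t)) ∂μ =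
        ∫⁻ t, liminf (fun j => ENNReal.ofReal (f j t)) atTop ∂μ := by
      refine lintegral_congr_ae ?_
      filter_upwards [hfl] with t ht
      have h3 : Tendsto (fun j => ENNReal.ofReal (f j t)) atTop
          (𝓝 (ENNReal.ofReal (Real.log (1 + G t)))) := ENNReal.tendsto_ofReal ht
      exact h3.liminf_eq.symm
    rw [h2]
    refine h1.trans ?_
    refine (liminf_le_liminf (Eventually.of_forall hlint)).trans ?_
    rw [liminf_const]
  have hGm : Measurable fun t => Real.log (1 + G t) := (hG.const_add 1).log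
  have hlnn : ∀ᵐ t ∂μ, 0 ≤ Real.log (1 + G t) := by
    refine ae_restrict_of_ae ?_
    filter_upwards [hGnn] with t ht
    exact Real.log_nonneg (by linarith)
  have hint : Integrable (fun t => Real.log (1 + G t)) μ := by
    refine ⟨hGm.aestronglyMeasurable, ?_⟩
    rw [hasFiniteIntegral_iff_ofReal hlnn]
    exact lt_of_le_of_lt hfat ENNReal.ofReal_lt_top
  refine ⟨fun t => Real.log (1 + G t), ?_, ?_, ?_⟩
  · rw [intervalIntegrable_iff_integrableOn_Ioc_of_le zero_le_one]
    exact hint
  · filter_upwards [hGnn] with t ht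
    exact ⟨ht, le_rfl⟩
  · rw [intervalIntegral.integral_of_le zero_le_one, integral_eq_lintegral_of_nonneg_ae hlnn
      hGm.aestronglyMeasurable]
    exact ENNReal.toReal_le_of_le_ofReal hc0 hfat

section general

variable {ι : Type*} [Fintype ι] [DecidableEq ι]

theorem ff_continuous (W : ℝ → Matrix ι ι ℂ) (hW : Continuous W) :
    Continuous fun p : ℝ × ℂ => ff (W p.1) p.2 := by
  unfold ff
  refine Continuous.matrix_det ?_
  exact (continuous_snd.smul (hW.comp continuous_fst)).add
    (hW.comp continuous_fst).matrix_conjTranspose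

theorem ff_cont_t (W : Matrix ι ι ℂ) : Continuous fun t => ff W (ez t) := by
  have := (ff_continuous (fun _ => W) continuous_const)
  exact this.comp ((continuous_const (y := (0 : ℝ))).prodMk D_continuous_ez)

/-- upper semicontinuity of the Mahler measure -/
theorem mm_usc (W : ℝ → Matrix ι ι ℂ) (hW : Continuous W) (h0 : fp (W 0) ≠ 0) :
    ∀ᶠ s in 𝓝 (0 : ℝ), (fp (W s)).mahlerMeasure ≤ 2 * (fp (W 0)).mahlerMeasure := by
  set M := (fp (W 0)).mahlerMeasure with hM
  have hM0 : 0 < M := mahlerMeasure_pos_of_ne_zero h0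
  set δ : ℕ → ℝ := fun j => 1 / ((j : ℝ) + 1) with hδ
  have hδ0 : ∀ j, 0 < δ j := fun j => by
    show 0 < 1 / ((j : ℝ) + 1)
    positivity
  have hδ1 : ∀ j, δ j ≤ 1 := fun j => by
    show 1 / ((j : ℝ) + 1) ≤ 1
    rw [div_le_one (by positivity)]
    have : (0:ℝ) ≤ j := Nat.cast_nonneg j
    linarith
  set φ : ℕ → ℝ → ℝ := fun j s => ∫ t in (0:ℝ)..1, Real.log (max ‖ff (W s) (ez t)‖ (δ j)) with hφ
  have hc2 : ∀ j, Continuous (Function.uncurry fun (s t : ℝ) =>
      Real.log (max ‖ff (W s) (ez t)‖ (δ j))) := by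
    intro j
    refine Continuous.log ?_ fun p => (lt_max_of_lt_right (hδ0 j)).ne'
    refine Continuous.max ?_ continuous_const
    refine Continuous.norm ?_
    exact (ff_continuous W hW).comp (continuous_fst.prodMk (D_continuous_ez.comp continuous_snd))
  have hc1 : ∀ j s, Continuous fun t => Real.log (max ‖ff (W s) (ez t)‖ (δ j)) := fun j s =>
    Continuous.log ((ff_cont_t (W s)).norm.max continuous_const)
      fun t => (lt_max_of_lt_right (hδ0 j)).ne'
  have hφc : ∀ j, Continuous (φ j) := fun j =>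
    intervalIntegral.continuous_parametric_intervalIntegral_of_continuous' (hc2 j) 0 1
  have hlim : Tendsto (fun j => φ j 0) atTop (𝓝 (Real.log M)) := by
    have e1 : Real.log M = ∫ t in (0:ℝ)..1, Real.log ‖ff (W 0) (ez t)‖ := by
      rw [hM, log_mahler]
      simp only [fp_eval]
    rw [e1]
    have hint := integrable_log (fp (W 0))
    simp only [fp_eval] at hint
    refine intervalIntegral.tendsto_integral_filter_of_dominated_convergence
      (fun t => |Real.log ‖ff (W 0) (ez t)‖|) ?_ ?_ hint.abs ?_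
    · exact Eventually.of_forall fun j => (hc1 j 0).aestronglyMeasurable
    · refine Eventually.of_forall fun j => ?_
      filter_upwards [ae_eval_ne _ h0] with t ht _
      rw [fp_eval] at ht
      have h1 : 0 < ‖ff (W 0) (ez t)‖ := norm_pos_iff.mpr ht
      rw [Real.norm_eq_abs]
      rcases le_total (δ j) ‖ff (W 0) (ez t)‖ with h2 | h2
      · rw [max_eq_left h2]
      · rw [max_eq_right h2, abs_of_nonpos (Real.log_nonpos (hδ0 j).le (hδ1 j)),
          abs_of_nonpos (Real.log_nonpos h1.le (h2.trans (hδ1 j)))]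
        exact neg_le_neg (Real.log_le_log h1 h2)
    · filter_upwards [ae_eval_ne _ h0] with t ht _
      rw [fp_eval] at ht
      have h1 : 0 < ‖ff (W 0) (ez t)‖ := norm_pos_iff.mpr ht
      have h2 : Tendsto (fun j => max ‖ff (W 0) (ez t)‖ (δ j)) atTop
          (𝓝 (max ‖ff (W 0) (ez t)‖ 0)) :=
        tendsto_const_nhds.max tendsto_one_div_add_atTop_nhds_zero_nat
      rw [max_eq_left h1.le] at h2
      exact h2.log h1.ne'
  have h2 : Real.log M < Real.log (2 * M) := Real.log_lt_log hM0 (by linarith)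
  obtain ⟨j, hj⟩ := (hlim.eventually (gt_mem_nhds h2)).exists
  have h3 := (hφc j).continuousAt.eventually (gt_mem_nhds hj)
  filter_upwards [h3] with s hs
  by_cases h4 : fp (W s) = 0
  · rw [h4, mahlerMeasure_zero]
    linarith
  · have h5 : 0 < (fp (W s)).mahlerMeasure := mahlerMeasure_pos_of_ne_zero h4
    rw [← Real.log_le_log_iff h5 (by linarith), log_mahler]
    refine le_trans ?_ hs.le
    refine intervalIntegral.integral_mono_ae zero_le_one (integrable_log _) ?_ ?_
    · exact (hc1 j s).intervalIntegrable _ _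
    · filter_upwards [ae_eval_ne _ h4] with t ht
      rw [fp_eval] at ht ⊢
      exact Real.log_le_log (norm_pos_iff.mpr ht) (le_max_left _ _)

theorem hh_tendsto (W : ℝ → Matrix ι ι ℂ) (hW : Continuous W) (h0 : ff (W 0) 0 ≠ 0) (t : ℝ) :
    Tendsto (fun s => hh (W s) t) (𝓝 0) (𝓝 (hh (W 0) t)) := by
  unfold hh gg
  have h1 : ∀ z : ℂ, Tendsto (fun s => ff (W s) z) (𝓝 0) (𝓝 (ff (W 0) z)) := by
    intro z
    have h2 : Continuous fun s : ℝ => ff (W s) z :=
      (ff_continuous W hW).comp (continuous_id.prodMk continuous_const)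
    exact h2.tendsto 0
  exact (((h1 (ez t)).div (h1 0) h0).norm).div_const _

theorem pw_cont (n : ℕ) : Continuous fun t => ‖1 + ez t‖ ^ n :=
  ((continuous_const.add D_continuous_ez).norm).pow _

theorem hh_measurable (W : Matrix ι ι ℂ) : Measurable fun t => hh W t := by
  unfold hh gg
  exact ((ff_cont_t W).div_const _).norm.measurable.div (pw_cont _).measurable

end general

/-! ### blocks -/

variable {n : ℕ}

theorem gr_single {κ : Type*} [Fintype κ] [DecidableEq κ] (W : Matrix (Fin n) (Fin n) ℂ)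
    (f : κ → Fin n) : gr W (fun i => Pi.single (f i) 1) = W.submatrix f f := by
  ext i j
  simp only [gr, Matrix.of_apply, sf, Matrix.submatrix_apply, Matrix.mulVec_single_one]
  rw [dotProduct, Finset.sum_eq_single (f i)]
  · simp
  · intro l _ hl
    simp [hl]
  · simp

theorem posOn_of_gram {κ : Type*} [Fintype κ] [DecidableEq κ] {V : Matrix (Fin n) (Fin n) ℂ}
    {A : Submodule ℂ (Fin n → ℂ)} (b : Basis κ ℂ A) (h : PosF (gr V (fun i => (b i : Fin n → ℂ)))) :
    PosOn V A := by
  intro y hy hy0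
  have h1 := b.sum_repr ⟨y, hy⟩
  have h2 := congrArg (Subtype.val) h1
  rw [Submodule.coe_sum] at h2
  simp only [Submodule.coe_smul] at h2
  rw [← h2, sf_sum V (fun i => (b i : Fin n → ℂ)) (b.repr ⟨y, hy⟩) (b.repr ⟨y, hy⟩)]
  refine h _ fun h3 => hy0 ?_
  rw [← h2]
  refine Finset.sum_eq_zero fun i _ => ?_
  have := congrFun h3 i
  rw [this]
  simp

theorem sf_add {κ : Type*} [Fintype κ] [DecidableEq κ] (A B : Matrix κ κ ℂ) (x y : κ → ℂ) :
    sf (A + B) x y = sf A x y + sf B x y := by
  unfold sf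
  rw [Matrix.add_mulVec, dotProduct_add]

theorem sf_smul {κ : Type*} [Fintype κ] [DecidableEq κ] (a : ℂ) (A : Matrix κ κ ℂ) (x y : κ → ℂ) :
    sf (a • A) x y = a * sf A x y := by
  unfold sf
  rw [Matrix.smul_mulVec, dotProduct_smul, smul_eq_mul]

theorem Ve_eq (V : Matrix (Fin n) (Fin n) ℂ) (s : ℝ) :
    Ve V s = ((1 - s : ℝ) : ℂ) • V + (s : ℂ) • DD n := by
  ext i j
  simp [Ve]

theorem Ve_continuous (V : Matrix (Fin n) (Fin n) ℂ) : Continuous (Ve V) := by
  have h : Ve V = fun s : ℝ => ((1 - s : ℝ) : ℂ) • V + (s : ℂ) • DD n := by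
    ext1 s
    exact Ve_eq V s
  rw [h]
  fun_prop

theorem pos_Ve {V : Matrix (Fin n) (Fin n) ℂ} (hV : ∀ x, 0 ≤ (sf V x x).re) {s : ℝ} (hs0 : 0 < s)
    (hs1 : s < 1) : PosF (Ve V s) := by
  intro x hx0
  rw [Ve_eq, sf_add, sf_smul, sf_smul, Complex.add_re, Complex.re_ofReal_mul, Complex.re_ofReal_mul]
  have h1 := hV x
  have h2 : 0 < (sf (DD n) x x).re := by
    unfold DD
    rw [sf_diagonal]
    have h3 : ∀ i : Fin n, (1 + (i : ℕ) * Complex.I : ℂ).re = 1 := by
      intro i
      simp
    simp only [h3, mul_one]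
    refine Finset.sum_pos' (fun i _ => Complex.normSq_nonneg _) ?_
    by_contra hcon
    push Not at hcon
    apply hx0
    ext i
    have h4 := hcon i (Finset.mem_univ i)
    have h5 := le_antisymm h4 (Complex.normSq_nonneg _)
    exact Complex.normSq_eq_zero.mp h5
  have h3 : 0 ≤ (1 - s) * (sf V x x).re := mul_nonneg (by linarith) h1
  have h4 := mul_pos hs0 h2
  linarith

variable {d a : ℕ}

/-- top left block -/
def tb (V : Matrix (Fin (d + a)) (Fin (d + a)) ℂ) : Matrix (Fin d) (Fin d) ℂ :=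
  V.submatrix (Fin.castAdd a) (Fin.castAdd a)

theorem tb_Ve (V : Matrix (Fin (d + a)) (Fin (d + a)) ℂ) (s : ℝ) : tb (Ve V s) = Ve (tb V) s := by
  ext i j
  simp [tb, Ve, DD, Matrix.diagonal_apply]

/-- the standard basis vectors -/
def bv (d a : ℕ) (i : Fin d) : Fin (d + a) → ℂ := Pi.single (Fin.castAdd a i) 1

theorem bv_li : LinearIndependent ℂ (bv d a) := by
  have h := (Pi.basisFun ℂ (Fin (d + a))).linearIndependent.comp (Fin.castAdd a)
    (Fin.castAdd_injective d a)
  have h2 : (⇑(Pi.basisFun ℂ (Fin (d + a))) ∘ (Fin.castAdd a)) = bv d a := by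
    ext i j
    simp [bv, Pi.basisFun_apply]
  rwa [h2] at h

/-- the coordinate subspace -/
def UB (d a : ℕ) : Submodule ℂ (Fin (d + a) → ℂ) := Submodule.span ℂ (Set.range (bv d a))

/-- its basis -/
def bU (d a : ℕ) : Basis (Fin d) ℂ (UB d a) := Basis.span bv_li

theorem bU_apply (i : Fin d) : (bU d a i : Fin (d + a) → ℂ) = Pi.single (Fin.castAdd a i) 1 :=
  congrArg Subtype.val (Basis.span_apply (bv_li (d := d) (a := a)) i)

theorem gr_bU (W : Matrix (Fin (d + a)) (Fin (d + a)) ℂ) :
    gr W (fun i => (bU d a i : Fin (d + a) → ℂ)) = tb W := by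
  simp only [bU_apply]
  exact gr_single W (Fin.castAdd a)

theorem finrank_UB : finrank ℂ (UB d a) = d := by
  rw [finrank_eq_card_basis (bU d a), Fintype.card_fin]

theorem HA_UB (W : Matrix (Fin (d + a)) (Fin (d + a)) ℂ) (t : ℝ) : HA W (UB d a) t = hh (tb W) t := by
  rw [HA_eq W (bU d a), gr_bU]

/-- a basis of the whole space -/
def bT (n : ℕ) : Basis (Fin n) ℂ (⊤ : Submodule ℂ (Fin n → ℂ)) :=
  (Pi.basisFun ℂ (Fin n)).map Submodule.topEquiv.symm

theorem gr_bT (W : Matrix (Fin n) (Fin n) ℂ) : gr W (fun i => (bT n i : Fin n → ℂ)) = W := by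
  have h : (fun i => (bT n i : Fin n → ℂ)) = fun i => Pi.single (id i) 1 := by
    ext i j
    simp [bT, Pi.basisFun_apply]
  rw [h, gr_single]
  simp

theorem HA_top (W : Matrix (Fin n) (Fin n) ℂ) (t : ℝ) : HA W ⊤ t = hh W t := by
  rw [HA_eq W (bT n), gr_bT]

end

end Pool.Agent.L0h53.SC
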