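import Mathlib
import Pool.Agent.L0h53.SC.F

/-!
# The gap
-/

set_option autoImplicit false
set_option linter.unusedSectionVars false

namespace Pool.Agent.L0h53.SC

open MeasureTheory Polynomial Filter Matrix Module Topology
open Pool.Agent.H261R2.CM
open Pool.Agent.W242.IM (ae_eval_ne)
open Pool.Agent.Y820.LB

noncomputable section

section general

variable {ι : Type*} [Fintype ι] [DecidableEq ι]

theorem ff_zero' (W : Matrix ι ι ℂ) : ff W 0 = star W.det := by
  unfold ff
  rw [zero_smul, zero_add, Matrix.det_conjTranspose]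

theorem ff_reflect (W : Matrix ι ι ℂ) {z : ℂ} (hz : z ≠ 0) (h : ff W z = 0) :
    ff W (starRingEnd ℂ z)⁻¹ = 0 := by
  have h1 : star (ff W (starRingEnd ℂ z)⁻¹) = z⁻¹ ^ Fintype.card ι * ff W z := by
    unfold ff
    rw [← Matrix.det_conjTranspose, ← Matrix.det_smul]
    congr 1
    rw [Matrix.conjTranspose_add, Matrix.conjTranspose_smul, Matrix.conjTranspose_conjTranspose,
      smul_add, smul_smul, inv_mul_cancel₀ hz, one_smul, add_comm]
    congr 2
    show starRingEnd ℂ (starRingEnd ℂ z)⁻¹ = z⁻¹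
    rw [map_inv₀, Complex.conj_conj]
  rw [h, mul_zero] at h1
  exact star_eq_zero.mp h1

open scoped ComplexOrder in
/-- isotropic vectors of accretive matrices -/
theorem acc_kernel {W : Matrix ι ι ℂ} (hW : ∀ x, 0 ≤ (sf W x x).re) {v : ι → ℂ}
    (hv : sf W v v = 0) : W *ᵥ v + Wᴴ *ᵥ v = 0 := by
  have hH : (W + Wᴴ).PosSemidef := by
    refine Matrix.PosSemidef.of_dotProduct_mulVec_nonneg ?_ ?_
    · rw [Matrix.IsHermitian, Matrix.conjTranspose_add, Matrix.conjTranspose_conjTranspose, add_comm]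
    · intro x
      have h5 := pencil_form W 1 x x
      rw [one_smul] at h5
      rw [h5, one_mul]
      have h6 : sf W x x + star (sf W x x) = ((2 * (sf W x x).re : ℝ) : ℂ) := by
        show sf W x x + starRingEnd ℂ (sf W x x) = _
        rw [Complex.add_conj]
      rw [h6]
      have := hW x
      exact_mod_cast (by positivity : (0:ℝ) ≤ 2 * (sf W x x).re)
  have h5 : star v ⬝ᵥ ((W + Wᴴ) *ᵥ v) = 0 := by
    have h6 := pencil_form W 1 v v
    rw [one_smul] at h6
    rw [h6, hv, star_zero, mul_zero, add_zero]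
  have h6 := (hH.dotProduct_mulVec_zero_iff v).mp h5
  rwa [Matrix.add_mulVec] at h6

/-- accretive matrices -/
theorem ff_ne_semi {W : Matrix ι ι ℂ} (hW : ∀ x, 0 ≤ (sf W x x).re) (hdet : W.det ≠ 0) {z : ℂ}
    (hz : ‖z‖ < 1) : ff W z ≠ 0 := by
  intro h
  obtain ⟨v, hv, h1⟩ := Matrix.exists_mulVec_eq_zero_iff.mpr h
  have h2 := pencil_form W z v v
  rw [h1, dotProduct_zero] at h2
  have h3 : ‖sf W v v‖ = ‖z‖ * ‖sf W v v‖ := by
    have h4 : z * sf W v v = -star (sf W v v) := by linear_combination -h2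
    rw [← norm_mul, h4, norm_neg, norm_star]
  have h4 : sf W v v = 0 := by
    by_contra h5
    have h6 := norm_pos_iff.mpr h5
    nlinarith
  have h6 := acc_kernel hW h4
  rw [Matrix.add_mulVec, Matrix.smul_mulVec] at h1
  have h7 : (z - 1) • (W *ᵥ v) = 0 := by
    have h8 : Wᴴ *ᵥ v = -(W *ᵥ v) := by
      rw [eq_neg_iff_add_eq_zero, add_comm]
      exact h6
    rw [h8] at h1
    rw [sub_smul, one_smul, sub_eq_add_neg]
    exact h1
  have h8 : z - 1 ≠ 0 := by
    intro h9
    have : z = 1 := by linear_combination h9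
    rw [this] at hz
    simp at hz
  have h9 : W *ᵥ v = 0 := (smul_eq_zero.mp h7).resolve_left h8
  exact hdet (Matrix.exists_mulVec_eq_zero_iff.mp ⟨v, hv, h9⟩)

end general

variable {d a b : ℕ}

theorem det_ne_of_posF {ι : Type*} [Fintype ι] [DecidableEq ι] {W : Matrix ι ι ℂ} (hW : PosF W) :
    W.det ≠ 0 := by
  intro h
  obtain ⟨v, hv, h1⟩ := Matrix.exists_mulVec_eq_zero_iff.mpr h
  have h2 := hW v hv
  unfold sf at h2
  rw [h1, dotProduct_zero] at h2
  simp at h2

/-- two forms with a common block -/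
theorem common (V : Matrix (Fin (d + a)) (Fin (d + a)) ℂ) (V₁ : Matrix (Fin (d + b)) (Fin (d + b)) ℂ)
    (hblock : tb V = tb V₁) (hV : fp V ≠ 0) (hacc : ∀ x, 0 ≤ (sf (tb V) x x).re) (hdet : V₁.det ≠ 0) :
    Dom (fun t => ‖ff V (ez t)‖ / (2 * (fp V).mahlerMeasure) / ‖1 + ez t‖ ^ (d + a) / hh V₁ t)
      (CK a + CK b) := by
  have hcont := Ve_continuous V
  have hcont₁ := Ve_continuous V₁
  set M := (fp V).mahlerMeasure with hM
  have e1 := sep_family V
  have e1' := sep_family V₁
  have e2 : ∀ᶠ s : ℝ in 𝓝[>] 0, (fp (Ve V s)).mahlerMeasure ≤ 2 * M := by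
    have h1 := mm_usc (Ve V) hcont (by rw [Ve_zero]; exact hV)
    rw [Ve_zero] at h1
    exact h1.filter_mono nhdsWithin_le_nhds
  have e3 := det_family V
  have e3' := det_family V₁
  have e4 : ∀ᶠ s : ℝ in 𝓝[>] 0, 0 < s ∧ s < 1 := Ioo_mem_nhdsGT zero_lt_one
  set σ : ℕ → ℝ := fun j => 1 / ((j : ℝ) + 1) with hσ
  have ha0 : Tendsto σ atTop (𝓝[>] 0) := by
    refine tendsto_nhdsWithin_iff.mpr ⟨tendsto_one_div_add_atTop_nhds_zero_nat, ?_⟩
    refine Eventually.of_forall fun j => ?_
    show 0 < 1 / ((j : ℝ) + 1)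
    positivity
  have ha1 : Tendsto σ atTop (𝓝 0) := ha0.mono_right nhdsWithin_le_nhds
  have h0 : ff V₁ 0 ≠ 0 := by
    rw [ff_zero']
    exact star_ne_zero.mpr hdet
  refine dom_lim (fun j t => ‖ff (Ve V (σ j)) (ez t)‖ / (2 * M) / ‖1 + ez t‖ ^ (d + a) /
    hh (Ve V₁ (σ j)) t) _ _ ?_ ?_ ?_ ?_
  · intro j
    exact ((((ff_cont_t _).norm).measurable.div_const _).div (pw_cont _).measurable).div
      (hh_measurable _)
  · exact ((((ff_cont_t _).norm).measurable.div_const _).div (pw_cont _).measurable).div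
      (hh_measurable _)
  · filter_upwards [ha0.eventually e1, ha0.eventually e2, ha0.eventually e3, ha0.eventually e4,
      ha0.eventually e1', ha0.eventually e3'] with j h1 h2 h3 h4 h1' h3'
    obtain ⟨e, c1, c, c2, c3⟩ := exists_eig h3 h1
    obtain ⟨e', c1', c', c2', c3'⟩ := exists_eig h3' h1'
    have hpos : PosF (tb (Ve V (σ j))) := by
      rw [tb_Ve]
      exact pos_Ve hacc h4.1 h4.2
    have hblock' : tb (Ve V (σ j)) = tb (Ve V₁ (σ j)) := by rw [tb_Ve, tb_Ve, hblock]
    have hPU₁ : PosOn (Ve V₁ (σ j)) (UB d b) := by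
      refine posOn_of_gram (bU d b) ?_
      rw [gr_bU, ← hblock']
      exact hpos
    have hPU : PosOn (Ve V (σ j)) (UB d a) := by
      refine posOn_of_gram (bU d a) ?_
      rw [gr_bU]
      exact hpos
    have h5 := (e.generic h3 c1 c c2 c3 hPU (k := a) (by rw [finrank_UB])).1
    have h6 := (e'.generic h3' c1' c' c2' c3' hPU₁ (k := b) (by rw [finrank_UB])).2
    have h7 := dom_mul h5 h6
    refine h7.mono ?_
    have hne' : fp (Ve V₁ (σ j)) ≠ 0 := by
      intro h
      have := fp_coeff (Ve V₁ (σ j))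
      rw [h, coeff_zero] at this
      exact h3' this.symm
    filter_upwards [HA_ne hPU₁, ae_eval_ne _ hne'] with t ht ht'
    rw [HA_UB] at ht
    rw [HA_UB, HA_UB, hblock']
    rw [fp_eval] at ht'
    have h8 : mh (Ve V (σ j)) t / hh (tb (Ve V₁ (σ j))) t *
        (hh (tb (Ve V₁ (σ j))) t / mh (Ve V₁ (σ j)) t) = mh (Ve V (σ j)) t / mh (Ve V₁ (σ j)) t := by
      field_simp
    rw [h8]
    have h9 : 0 < (fp (Ve V (σ j))).mahlerMeasure := mahlerMeasure_pos_of_ne_zero (by
      intro h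
      have := fp_coeff (Ve V (σ j))
      rw [h, coeff_zero] at this
      exact h3 this.symm)
    have h9' : 0 < (fp (Ve V₁ (σ j))).mahlerMeasure := mahlerMeasure_pos_of_ne_zero hne'
    have h10 : 0 ≤ hh (Ve V₁ (σ j)) t := by
      unfold hh
      positivity
    have hM0 : 0 ≤ M := mahlerMeasure_nonneg _
    refine ⟨div_nonneg (by positivity) h10, ?_⟩
    -- compare the two normalizations
    have h11 : ‖ff (Ve V (σ j)) (ez t)‖ / (2 * M) / ‖1 + ez t‖ ^ (d + a) ≤ mh (Ve V (σ j)) t := by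
      unfold mh
      rw [Fintype.card_fin]
      refine div_le_div_of_nonneg_right ?_ (by positivity)
      exact div_le_div_of_nonneg_left (norm_nonneg _) h9 h2
    have h12 : mh (Ve V₁ (σ j)) t ≤ hh (Ve V₁ (σ j)) t := by
      unfold mh hh gg
      rw [norm_div]
      refine div_le_div_of_nonneg_right ?_ (by positivity)
      have h13 : ‖ff (Ve V₁ (σ j)) 0‖ ≤ (fp (Ve V₁ (σ j))).mahlerMeasure := by
        have h14 := leadingCoeff_le_mahlerMeasure (fp (Ve V₁ (σ j)))
        rw [leadingCoeff, fp_natDegree h3', fp_coeff] at h14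
        rw [ff_zero', norm_star]
        exact h14
      refine div_le_div_of_nonneg_left (norm_nonneg _) ?_ h13
      rw [ff_zero', norm_star]
      exact norm_pos_iff.mpr h3'
    have h15 : 0 ≤ mh (Ve V₁ (σ j)) t := by
      unfold mh
      positivity
    rcases h15.eq_or_lt with h16 | h16
    · -- only possible when `1 + z = 0`
      have h17 : ‖1 + ez t‖ ^ Fintype.card (Fin (d + b)) = 0 := by
        unfold mh at h16
        have h18 : ‖ff (Ve V₁ (σ j)) (ez t)‖ / (fp (Ve V₁ (σ j))).mahlerMeasure ≠ 0 :=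
          div_ne_zero (norm_ne_zero_iff.mpr ht') h9'.ne'
        rcases div_eq_zero_iff.mp h16.symm with h19 | h19
        · exact absurd h19 h18
        · exact h19
      have h20 : hh (Ve V₁ (σ j)) t = 0 := by
        unfold hh
        rw [h17, div_zero]
      rw [h20, div_zero, ← h16, div_zero]
    · exact div_le_div₀ (by unfold mh; positivity) h11 h16 h12
  · have hne : fp V₁ ≠ 0 := by
      intro h
      apply h0
      rw [← fp_eval, h, eval_zero]
    have hp : ∀ᵐ t : ℝ, (1 + X : ℂ[X]).eval (ez t) ≠ 0 := ae_eval_ne _ (by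
      intro h
      have := congrArg (eval 0) h
      simp at this)
    filter_upwards [ae_eval_ne _ hne, hp] with t h1 h2
    rw [fp_eval] at h1
    rw [eval_add, eval_one, eval_X] at h2
    have t1 : Tendsto (fun s => ff (Ve V s) (ez t)) (𝓝 0) (𝓝 (ff V (ez t))) := by
      have h3 : Continuous fun s : ℝ => ff (Ve V s) (ez t) :=
        (ff_continuous (Ve V) hcont).comp (continuous_id.prodMk continuous_const)
      have h4 := h3.tendsto 0
      rwa [Ve_zero] at h4
    have t2 := (hh_tendsto (Ve V₁) hcont₁ (by rw [Ve_zero]; exact h0) t)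
    rw [Ve_zero] at t2
    refine ((((t1.comp ha1).norm).div_const _).div_const _).div (t2.comp ha1) ?_
    unfold hh gg
    exact div_ne_zero (norm_ne_zero_iff.mpr (div_ne_zero h1 h0))
      (pow_ne_zero _ (norm_ne_zero_iff.mpr h2))

end

end Pool.Agent.L0h53.SC
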