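import Mathlib
import Pool.Agent.L0h53.SC.G

/-!
# The gap theorem
-/

set_option autoImplicit false
set_option linter.unusedSectionVars false

namespace Pool.Agent.L0h53.SC

open MeasureTheory Polynomial Filter Matrix Module Topology
open Pool.Agent.H261R2.CM
open Pool.Agent.W242.IM (ae_eval_ne)
open Pool.Agent.Y820.LB

noncomputable section

/-! ### change of basis -/

section congr

variable {ι : Type*} [Fintype ι] [DecidableEq ι]

theorem fp_congr (W P : Matrix ι ι ℂ) : fp (Pᴴ * W * P) = C (Pᴴ.det * P.det) * fp W := by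
  refine Polynomial.funext fun z => ?_
  rw [eval_mul, eval_C, fp_eval, fp_eval, ff_congr]

theorem mh_congr (W P : Matrix ι ι ℂ) (hP : P.det ≠ 0) (t : ℝ) : mh (Pᴴ * W * P) t = mh W t := by
  have hc : Pᴴ.det * P.det ≠ 0 := by
    rw [Matrix.det_conjTranspose]
    exact mul_ne_zero (star_ne_zero.mpr hP) hP
  unfold mh
  rw [ff_congr, fp_congr, mahlerMeasure_mul, mahlerMeasure_const, norm_mul,
    mul_div_mul_left _ _ (norm_ne_zero_iff.mpr hc)]

theorem hh_congr (W P : Matrix ι ι ℂ) (hP : P.det ≠ 0) (t : ℝ) : hh (Pᴴ * W * P) t = hh W t := by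
  unfold hh
  rw [gg_congr W P hP]

end congr

/-- extension to a basis -/
theorem exists_ext {d a : ℕ} (A : Matrix (Fin (d + a)) (Fin d) ℂ) (hA : Function.Injective A.mulVec) :
    ∃ P : Matrix (Fin (d + a)) (Fin (d + a)) ℂ, P.det ≠ 0 ∧
      ∀ i l, P i (Fin.castAdd a l) = A i l := by
  have hv : LinearIndependent ℂ A.col := Matrix.mulVec_injective_iff.mp hA
  obtain ⟨W, hW⟩ := Submodule.exists_isCompl (Submodule.span ℂ (Set.range A.col))
  have h1 := Submodule.finrank_add_eq_of_isCompl hW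
  rw [finrank_span_eq_card hv, Fintype.card_fin, Module.finrank_fin_fun] at h1
  have h2 : finrank ℂ W = a := by omega
  set w : Basis (Fin a) ℂ W := finBasisOfFinrankEq ℂ W h2 with hw
  set b : Basis (Fin (d + a)) ℂ (Fin (d + a) → ℂ) :=
    (((Basis.span hv).prod w).map (Submodule.prodEquivOfIsCompl _ _ hW)).reindex finSumFinEquiv
    with hb
  refine ⟨(Pi.basisFun ℂ (Fin (d + a))).toMatrix b, ?_, ?_⟩
  · have h3 := (Pi.basisFun ℂ (Fin (d + a))).isUnit_det b
    rw [Basis.det_apply] at h3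
    exact h3.ne_zero
  · intro i l
    rw [Basis.toMatrix_apply, Pi.basisFun_repr, hb]
    simp only [Basis.reindex_apply, finSumFinEquiv_symm_apply_castAdd, Basis.map_apply,
      Basis.prod_apply]
    simp [Basis.span_apply]

theorem tb_ext {d a : ℕ} (V : Matrix (Fin (d + a)) (Fin (d + a)) ℂ)
    (A : Matrix (Fin (d + a)) (Fin d) ℂ) (P : Matrix (Fin (d + a)) (Fin (d + a)) ℂ)
    (h : ∀ i l, P i (Fin.castAdd a l) = A i l) : tb (Pᴴ * V * P) = Aᴴ * V * A := by
  ext i j
  simp only [tb, Matrix.submatrix_apply, Matrix.mul_apply, Matrix.conjTranspose_apply, h]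

theorem acc_congr {ι : Type*} [Fintype ι] [DecidableEq ι] {W : Matrix ι ι ℂ}
    (hW : ∀ x, 0 ≤ (sf W x x).re) (P : Matrix ι ι ℂ) (x : ι → ℂ) : 0 ≤ (sf (Pᴴ * W * P) x x).re := by
  have h : sf (Pᴴ * W * P) x x = sf W (P *ᵥ x) (P *ᵥ x) := by
    unfold sf
    rw [Matrix.star_mulVec, ← Matrix.dotProduct_mulVec, Matrix.mulVec_mulVec, Matrix.mulVec_mulVec,
      Matrix.mul_assoc]
  rw [h]
  exact hW _

/-- two forms that agree on a subspace -/
theorem common_general {n m d k : ℕ} (V : Matrix (Fin n) (Fin n) ℂ) (V₁ : Matrix (Fin m) (Fin m) ℂ)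
    (A : Matrix (Fin n) (Fin d) ℂ) (B : Matrix (Fin m) (Fin d) ℂ)
    (hA : Function.Injective A.mulVec) (hB : Function.Injective B.mulVec)
    (hAB : Aᴴ * V * A = Bᴴ * V₁ * B) (hn : n ≤ d + k) (hm : m ≤ d + k)
    (hV : fp V ≠ 0) (hacc : ∀ x, 0 ≤ (sf (Aᴴ * V * A) x x).re) (hdet : V₁.det ≠ 0) :
    Dom (fun t => mh V t / 2 / hh V₁ t) (CK k + CK k) := by
  have hdn : d ≤ n := by
    have := (Matrix.mulVec_injective_iff.mp hA).fintype_card_le_finrank
    rwa [Fintype.card_fin, Module.finrank_fin_fun] at this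
  have hdm : d ≤ m := by
    have := (Matrix.mulVec_injective_iff.mp hB).fintype_card_le_finrank
    rwa [Fintype.card_fin, Module.finrank_fin_fun] at this
  obtain ⟨a, rfl⟩ := Nat.exists_eq_add_of_le hdn
  obtain ⟨b, rfl⟩ := Nat.exists_eq_add_of_le hdm
  obtain ⟨P, hP, hPA⟩ := exists_ext A hA
  obtain ⟨R, hR, hRB⟩ := exists_ext B hB
  have hc : ∀ {ι : Type} [Fintype ι] [DecidableEq ι] (P : Matrix ι ι ℂ), P.det ≠ 0 →
      Pᴴ.det * P.det ≠ 0 := by
    intro ι _ _ P hP
    rw [Matrix.det_conjTranspose]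
    exact mul_ne_zero (star_ne_zero.mpr hP) hP
  have h1 := common (Pᴴ * V * P) (Rᴴ * V₁ * R) (by rw [tb_ext V A P hPA, tb_ext V₁ B R hRB, hAB])
    (by
      rw [fp_congr]
      exact mul_ne_zero (C_ne_zero.mpr (hc P hP)) hV) (by
      rw [tb_ext V A P hPA]
      exact hacc) (by
      rw [Matrix.det_mul, Matrix.det_mul]
      have := hc R hR
      exact mul_ne_zero (mul_ne_zero (left_ne_zero_of_mul this) hdet) hR)
  have h2 : Dom (fun t => mh V t / 2 / hh V₁ t)
      (CK a + CK b) := by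
    refine dom_congr h1 (Eventually.of_forall fun t => ?_)
    rw [hh_congr V₁ R hR, ← mh_congr V P hP]
    congr 1
    unfold mh
    rw [Fintype.card_fin, div_right_comm, div_div _ _ 2, mul_comm _ 2]
  refine h2.le ?_
  have ha : (a : ℝ) ≤ k := by exact_mod_cast (by omega : a ≤ k)
  have hb : (b : ℝ) ≤ k := by exact_mod_cast (by omega : b ≤ k)
  have hl2 : 0 ≤ Real.log 2 := Real.log_nonneg (by norm_num)
  unfold CK
  nlinarith [mul_le_mul_of_nonneg_right ha hl2, mul_le_mul_of_nonneg_right hb hl2]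

/-- accretive singular matrices have singular pencils -/
theorem ff_zero_of_acc {ι : Type*} [Fintype ι] [DecidableEq ι] {W : Matrix ι ι ℂ}
    (hW : ∀ x, 0 ≤ (sf W x x).re) (hdet : W.det = 0) (z : ℂ) : ff W z = 0 := by
  obtain ⟨v, hv, h1⟩ := Matrix.exists_mulVec_eq_zero_iff.mpr hdet
  have h2 := acc_kernel hW (v := v) (by unfold sf; rw [h1, dotProduct_zero])
  refine Matrix.exists_mulVec_eq_zero_iff.mp ⟨v, hv, ?_⟩
  rw [h1, zero_add] at h2
  rw [Matrix.add_mulVec, Matrix.smul_mulVec, h1, h2, smul_zero, add_zero]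

end

end Pool.Agent.L0h53.SC
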