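import Mathlib
import Pool.Agent.L0h53.SC.I

/-!
# Isometries
-/

set_option autoImplicit false
set_option linter.unusedSectionVars false

namespace Pool.Agent.L0h53.SC

open MeasureTheory Polynomial Filter Matrix Module Topology
open Pool.Agent.H261R2.CM
open Pool.Agent.W242.IM (ae_eval_ne)
open Pool.Agent.Y820.LB

noncomputable section

theorem ez_add (a b : ℝ) : ez (a + b) = ez a * ez b := by
  unfold ez
  rw [← Complex.exp_add]
  congr 1
  push_cast
  ring

theorem ez_zero : ez 0 = 1 := by simp [ez]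

theorem ez_one : ez 1 = 1 := by
  unfold ez
  have : (2 * (Real.pi : ℂ) * ((1 : ℝ) : ℂ) * Complex.I) = 2 * Real.pi * Complex.I := by
    push_cast; ring
  first
    | rw [this, Complex.exp_two_pi_mul_I]
    | simp

theorem ez_ne (t : ℝ) : ez t ≠ 0 := Complex.exp_ne_zero _

theorem ez_neg_mul (a : ℝ) : ez (-a) * ez a = 1 := by
  rw [← ez_add, neg_add_cancel, ez_zero]

theorem star_ez (a : ℝ) : star (ez a) = ez (-a) := by
  have h1 : star (ez a) * ez a = 1 := by
    show starRingEnd ℂ (ez a) * ez a = 1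
    rw [mul_comm, Complex.mul_conj, Complex.normSq_eq_norm_sq, D_norm_ez]
    simp
  have h2 := ez_neg_mul a
  exact mul_right_cancel₀ (ez_ne a) (h1.trans h2.symm)

/-- rotation invariance of the Mahler measure -/
theorem mahler_rot (p q : ℂ[X]) (τ : ℝ) (hq0 : q ≠ 0) (hp0 : p ≠ 0)
    (h : ∀ z, ‖z‖ = 1 → ‖q.eval z‖ = ‖p.eval (ez (-τ) * z)‖) : q.mahlerMeasure = p.mahlerMeasure := by
  have h1 : Real.log q.mahlerMeasure = Real.log p.mahlerMeasure := by
    rw [log_mahler, log_mahler]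
    have h2 : ∀ t, Real.log ‖q.eval (ez t)‖ = (fun u => Real.log ‖p.eval (ez u)‖) (t + -τ) := by
      intro t
      dsimp only
      rw [h _ (D_norm_ez t), ez_add, mul_comm]
    simp only [h2]
    rw [intervalIntegral.integral_comp_add_right (fun u => Real.log ‖p.eval (ez u)‖)]
    have hper : Function.Periodic (fun u => Real.log ‖p.eval (ez u)‖) 1 := by
      intro u
      dsimp only
      rw [ez_add, ez_one, mul_one]
    have h3 := hper.intervalIntegral_add_eq (0 + -τ) 0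
    rw [zero_add] at h3
    rw [zero_add, show (1 : ℝ) + -τ = -τ + 1 by ring]
    simpa using h3
  exact Real.log_injOn_pos (mahlerMeasure_pos_of_ne_zero hq0) (mahlerMeasure_pos_of_ne_zero hp0) h1

/-- the form of an isometry -/
theorem cayley {n : ℕ} {G T : Matrix (Fin n) (Fin n) ℂ} (hG : Gᴴ = G) (hT : Tᴴ * G * T = G) {ω : ℂ}
    (hω : star ω * ω = 1) (hX : IsUnit (1 - ω • T).det) :
    (G * (1 - ω • T)⁻¹) * (1 - ω • T) = G ∧ (G * (1 - ω • T)⁻¹) + (G * (1 - ω • T)⁻¹)ᴴ = G ∧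
    ∀ z, ff (G * (1 - ω • T)⁻¹) z = G.det * (1 - ω • T)⁻¹.det * (z • 1 - ω • T).det := by
  set X := 1 - ω • T with hXd
  set N := X⁻¹ with hN
  have hNX : N * X = 1 := Matrix.nonsing_inv_mul _ hX
  have hXN : X * N = 1 := Matrix.mul_nonsing_inv _ hX
  have h1 : (G * N) * X = G := by rw [Matrix.mul_assoc, hNX, Matrix.mul_one]
  have hXG : Xᴴ * G * X = Xᴴ * G + G * X := by
    have e1 : Xᴴ = 1 - star ω • Tᴴ := by
      rw [hXd, Matrix.conjTranspose_sub, Matrix.conjTranspose_one, Matrix.conjTranspose_smul]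
    rw [e1, hXd]
    have e2 : (1 - star ω • Tᴴ) * G * (1 - ω • T) =
        G - star ω • (Tᴴ * G) - ω • (G * T) + (star ω * ω) • (Tᴴ * G * T) := by
      rw [Matrix.sub_mul, Matrix.one_mul, Matrix.mul_sub, Matrix.mul_one, Matrix.sub_mul]
      simp only [Matrix.smul_mul, Matrix.mul_smul, smul_smul, mul_comm ω (star ω)]
      abel
    rw [e2, hω, one_smul, hT, Matrix.sub_mul, Matrix.one_mul, Matrix.mul_sub, Matrix.mul_one,
      Matrix.smul_mul, Matrix.mul_smul]
    abel
  have h2 : (G * N) + (G * N)ᴴ = G := by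
    have hNG : (G * N)ᴴ = Nᴴ * G := by rw [Matrix.conjTranspose_mul, hG]
    rw [hNG]
    have e1 : Nᴴ * Xᴴ = 1 := by rw [← Matrix.conjTranspose_mul, hXN, Matrix.conjTranspose_one]
    calc G * N + Nᴴ * G = (Nᴴ * Xᴴ) * (G * N) + Nᴴ * G * (X * N) := by
          rw [e1, hXN, Matrix.one_mul, Matrix.mul_one]
      _ = Nᴴ * (Xᴴ * G + G * X) * N := by
          simp only [Matrix.mul_add, Matrix.add_mul, Matrix.mul_assoc]
      _ = Nᴴ * (Xᴴ * G * X) * N := by rw [hXG]
      _ = (Nᴴ * Xᴴ) * G * (X * N) := by simp only [Matrix.mul_assoc]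
      _ = G := by rw [e1, hXN, Matrix.one_mul, Matrix.mul_one]
  refine ⟨h1, h2, fun z => ?_⟩
  have h3 : z • (G * N) + (G * N)ᴴ = G * (z • 1 - ω • T) * N := by
    have e1 : (G * N)ᴴ = G - G * N := eq_sub_of_add_eq' h2
    rw [e1]
    have e2 : z • (1 : Matrix (Fin n) (Fin n) ℂ) - ω • T = (z - 1) • 1 + X := by
      rw [hXd, sub_smul, one_smul]
      abel
    rw [e2, Matrix.mul_add, Matrix.add_mul, Matrix.mul_smul, Matrix.mul_one, Matrix.smul_mul,
      Matrix.mul_assoc G X N, hXN, Matrix.mul_one, sub_smul, one_smul]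
    abel
  unfold ff
  rw [h3, Matrix.det_mul, Matrix.det_mul]
  ring

end

end Pool.Agent.L0h53.SC
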