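import Mathlib
import Pool.Agent.L0h53.SC.J

/-!
# Two isometries which agree on a subspace
-/

set_option autoImplicit false
set_option linter.unusedSectionVars false

namespace Pool.Agent.L0h53.SC

open MeasureTheory Polynomial Filter Matrix Module Topology
open Pool.Agent.H261R2.CM
open Pool.Agent.W242.IM (ae_eval_ne)
open Pool.Agent.Y820.LB

noncomputable section

theorem det_norm_one {m : ℕ} {G T : Matrix (Fin m) (Fin m) ℂ} (hd : G.det ≠ 0)
    (hT : Tᴴ * G * T = G) : ‖T.det‖ = 1 := by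
  have h := congrArg (fun M => ‖M.det‖) hT
  simp only [Matrix.det_mul, Matrix.det_conjTranspose, norm_mul, norm_star] at h
  have h2 : 0 < ‖G.det‖ := norm_pos_iff.mpr hd
  have h3 : ‖T.det‖ * ‖T.det‖ = 1 := by
    have h4 : ‖T.det‖ * ‖T.det‖ * ‖G.det‖ = 1 * ‖G.det‖ := by
      rw [one_mul]
      linarith
    exact mul_right_cancel₀ h2.ne' h4
  nlinarith [norm_nonneg T.det]

theorem charpoly_eval' {n : ℕ} (T : Matrix (Fin n) (Fin n) ℂ) (z : ℂ) :
    T.charpoly.eval z = (z • (1 : Matrix (Fin n) (Fin n) ℂ) - T).det := by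
  rw [Matrix.eval_charpoly, Matrix.smul_one_eq_diagonal]
  rfl

theorem norm_rot {n : ℕ} (T : Matrix (Fin n) (Fin n) ℂ) (τ : ℝ) (z : ℂ) :
    ‖(z • (1 : Matrix (Fin n) (Fin n) ℂ) - ez τ • T).det‖ = ‖T.charpoly.eval (ez (-τ) * z)‖ := by
  have h : z • (1 : Matrix (Fin n) (Fin n) ℂ) - ez τ • T =
      ez τ • ((ez (-τ) * z) • (1 : Matrix (Fin n) (Fin n) ℂ) - T) := by
    rw [smul_sub, smul_smul, ← mul_assoc, mul_comm (ez τ), ez_neg_mul, one_mul]
  rw [h, Matrix.det_smul, charpoly_eval', norm_mul, norm_pow, D_norm_ez, one_pow, one_mul]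

theorem charpoly_rot {n : ℕ} (T : Matrix (Fin n) (Fin n) ℂ) (τ : ℝ) :
    (ez τ • T).charpoly.mahlerMeasure = T.charpoly.mahlerMeasure := by
  refine mahler_rot _ _ τ (Matrix.charpoly_monic _).ne_zero (Matrix.charpoly_monic _).ne_zero ?_
  intro z _
  rw [charpoly_eval', norm_rot]

/-- the comparison at a fixed rotation -/
theorem iso_step {n m d k : ℕ} (G T : Matrix (Fin n) (Fin n) ℂ) (G₁ T₁ : Matrix (Fin m) (Fin m) ℂ)
    (A : Matrix (Fin n) (Fin d) ℂ) (B : Matrix (Fin m) (Fin d) ℂ) (C₀ : Matrix (Fin k) (Fin n) ℂ)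
    (hG : Gᴴ = G) (hG₁ : G₁ᴴ = G₁) (hdG : G.det ≠ 0) (hdG₁ : G₁.det ≠ 0)
    (hT : Tᴴ * G * T = G) (hT₁ : T₁ᴴ * G₁ * T₁ = G₁)
    (hA : Function.Injective A.mulVec) (hB : Function.Injective B.mulVec)
    (h1 : Aᴴ * G * A = Bᴴ * G₁ * B) (h2 : (T * A)ᴴ * G * A = (T₁ * B)ᴴ * G₁ * B)
    (hn : n ≤ d + k) (hm : m ≤ d + k) (hC : ∀ x, C₀ *ᵥ x = 0 → 0 ≤ (sf G x x).re)
    (τ : ℝ) (hX : (1 - ez τ • T).det ≠ 0) (hX₁ : (1 - ez τ • T₁).det ≠ 0) :
    Dom (fun t => ‖T.charpoly.eval (ez (-τ) * ez t)‖ / T.charpoly.mahlerMeasure /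
      ‖1 + ez t‖ ^ n / 2 / (‖T₁.charpoly.eval (ez (-τ) * ez t)‖ / ‖1 + ez t‖ ^ m))
      (CK (2 * k) + CK (2 * k)) := by
  set ω := ez τ with hω
  have hω1 : star ω * ω = 1 := by rw [hω, star_ez, ez_neg_mul]
  set X := 1 - ω • T with hXd
  set X₁ := 1 - ω • T₁ with hXd₁
  obtain ⟨a1, a2, a3⟩ := cayley hG hT hω1 (Ne.isUnit hX)
  obtain ⟨b1, b2, b3⟩ := cayley hG₁ hT₁ hω1 (Ne.isUnit hX₁)
  rw [← hXd] at a1 a2 a3
  rw [← hXd₁] at b1 b2 b3
  set V := G * X⁻¹ with hV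
  set V₁ := G₁ * X₁⁻¹ with hV₁
  have hNX : X⁻¹ * X = 1 := Matrix.nonsing_inv_mul _ (Ne.isUnit hX)
  have hNX₁ : X₁⁻¹ * X₁ = 1 := Matrix.nonsing_inv_mul _ (Ne.isUnit hX₁)
  have hdN : X⁻¹.det ≠ 0 := by
    intro h
    have := congrArg Matrix.det hNX
    rw [Matrix.det_mul, h, zero_mul, Matrix.det_one] at this
    exact zero_ne_one this
  have hdN₁ : X₁⁻¹.det ≠ 0 := by
    intro h
    have := congrArg Matrix.det hNX₁
    rw [Matrix.det_mul, h, zero_mul, Matrix.det_one] at this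
    exact zero_ne_one this
  -- the kernel
  set K := LinearMap.ker (C₀ * X * A).mulVecLin with hK
  have hfr : d ≤ finrank ℂ K + k := by
    have e1 := LinearMap.finrank_range_add_finrank_ker (C₀ * X * A).mulVecLin
    rw [Module.finrank_fin_fun] at e1
    have e2 : finrank ℂ (LinearMap.range (C₀ * X * A).mulVecLin) ≤ k := by
      have := Submodule.finrank_le (LinearMap.range (C₀ * X * A).mulVecLin)
      rwa [Module.finrank_fin_fun] at this
    rw [hK]
    omega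
  have hmem : ∀ v ∈ K, (C₀ * X * A) *ᵥ v = 0 := by
    intro v hv
    rw [hK, LinearMap.mem_ker] at hv
    exact hv
  set e := finrank ℂ K with he
  set b := finBasis ℂ K with hb
  set E : Matrix (Fin d) (Fin e) ℂ := Matrix.of fun i j => (b j : Fin d → ℂ) i with hE
  have hEinj : Function.Injective E.mulVec := by
    rw [Matrix.mulVec_injective_iff]
    have e1 := b.linearIndependent.map' K.subtype (Submodule.ker_subtype K)
    have e2 : (K.subtype ∘ ⇑b) = E.col := by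
      ext j i
      rfl
    rwa [e2] at e1
  have hEker : ∀ x, (C₀ * X * A) *ᵥ (E *ᵥ x) = 0 := by
    intro x
    have e1 : E *ᵥ x = ((∑ j, x j • b j : K) : Fin d → ℂ) := by
      ext i
      rw [Submodule.coe_sum, Finset.sum_apply]
      simp only [Submodule.coe_smul, Pi.smul_apply, smul_eq_mul]
      rw [Matrix.mulVec, dotProduct]
      refine Finset.sum_congr rfl fun j _ => ?_
      rw [hE, Matrix.of_apply, mul_comm]
    rw [e1]
    exact hmem _ (Submodule.coe_mem _)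
  have hXinj : Function.Injective X.mulVec := by
    intro x y hxy
    have := congrArg (X⁻¹ *ᵥ ·) hxy
    simpa only [Matrix.mulVec_mulVec, hNX, Matrix.one_mulVec] using this
  have hXinj₁ : Function.Injective X₁.mulVec := by
    intro x y hxy
    have := congrArg (X₁⁻¹ *ᵥ ·) hxy
    simpa only [Matrix.mulVec_mulVec, hNX₁, Matrix.one_mulVec] using this
  have hAE : Function.Injective (X * A * E).mulVec := by
    intro x y hxy
    rw [← Matrix.mulVec_mulVec, ← Matrix.mulVec_mulVec, ← Matrix.mulVec_mulVec,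
      ← Matrix.mulVec_mulVec] at hxy
    exact hEinj (hA (hXinj hxy))
  have hBE : Function.Injective (X₁ * B * E).mulVec := by
    intro x y hxy
    rw [← Matrix.mulVec_mulVec, ← Matrix.mulVec_mulVec, ← Matrix.mulVec_mulVec,
      ← Matrix.mulVec_mulVec] at hxy
    exact hEinj (hB (hXinj₁ hxy))
  have key : ∀ {l : ℕ} (G' T' : Matrix (Fin l) (Fin l) ℂ) (A' : Matrix (Fin l) (Fin d) ℂ)
      (V' : Matrix (Fin l) (Fin l) ℂ), V' * (1 - ω • T') = G' →
      ((1 - ω • T') * A' * E)ᴴ * V' * ((1 - ω • T') * A' * E) =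
        Eᴴ * (A'ᴴ * G' * A' - star ω • ((T' * A')ᴴ * G' * A')) * E := by
    intro l G' T' A' V' hV'
    have e1 : ((1 - ω • T') * A' * E)ᴴ * V' * ((1 - ω • T') * A' * E) =
        Eᴴ * (A'ᴴ * (1 - ω • T')ᴴ * (V' * (1 - ω • T')) * A') * E := by
      simp only [Matrix.conjTranspose_mul, Matrix.mul_assoc]
    rw [e1, hV', Matrix.conjTranspose_sub, Matrix.conjTranspose_one, Matrix.conjTranspose_smul,
      Matrix.mul_sub, Matrix.mul_one, Matrix.sub_mul, Matrix.sub_mul, Matrix.mul_smul,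
      Matrix.smul_mul, Matrix.smul_mul, Matrix.conjTranspose_mul]
  have hAB : (X * A * E)ᴴ * V * (X * A * E) = (X₁ * B * E)ᴴ * V₁ * (X₁ * B * E) := by
    rw [hXd, hXd₁, key G T A V a1, key G₁ T₁ B V₁ b1, h1, h2]
  have hacc : ∀ x, 0 ≤ (sf ((X * A * E)ᴴ * V * (X * A * E)) x x).re := by
    intro x
    set u := (X * A * E) *ᵥ x with hu
    have e1 : sf ((X * A * E)ᴴ * V * (X * A * E)) x x = sf V u u := by
      rw [hu]
      unfold sf
      rw [Matrix.star_mulVec, ← Matrix.dotProduct_mulVec, Matrix.mulVec_mulVec,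
        Matrix.mulVec_mulVec, Matrix.mul_assoc]
    rw [e1]
    have e2 : sf G u u = sf V u u + star (sf V u u) := by
      rw [star_sf, ← a2]
      unfold sf
      rw [Matrix.add_mulVec, dotProduct_add]
    have e3 : C₀ *ᵥ u = 0 := by
      rw [hu, Matrix.mulVec_mulVec, ← Matrix.mul_assoc, ← Matrix.mul_assoc, ← Matrix.mulVec_mulVec]
      exact hEker x
    have e4 := hC u e3
    rw [e2, Complex.add_re] at e4
    have e5 : (star (sf V u u)).re = (sf V u u).re := Complex.conj_re _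
    rw [e5] at e4
    linarith
  have hfp : fp V = C (G.det * X⁻¹.det) * (ω • T).charpoly := by
    refine Polynomial.funext fun z => ?_
    rw [eval_mul, eval_C, fp_eval, a3, charpoly_eval']
  have hfpne : fp V ≠ 0 := by
    rw [hfp]
    exact mul_ne_zero (C_ne_zero.mpr (mul_ne_zero hdG hdN)) (Matrix.charpoly_monic _).ne_zero
  have hdV₁ : V₁.det ≠ 0 := by
    rw [hV₁, Matrix.det_mul]
    exact mul_ne_zero hdG₁ hdN₁
  have hdom := common_general (k := 2 * k) V V₁ (X * A * E) (X₁ * B * E) hAE hBE hAB (by omega)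
    (by omega) hfpne hacc hdV₁
  refine dom_congr hdom (Eventually.of_forall fun t => ?_)
  have hc0 : G.det * X⁻¹.det ≠ 0 := mul_ne_zero hdG hdN
  have hc1 : G₁.det * X₁⁻¹.det ≠ 0 := mul_ne_zero hdG₁ hdN₁
  have e1 : mh V t = ‖T.charpoly.eval (ez (-τ) * ez t)‖ / T.charpoly.mahlerMeasure /
      ‖1 + ez t‖ ^ n := by
    unfold mh
    rw [a3, hfp, mahlerMeasure_mul, mahlerMeasure_const, norm_mul,
      mul_div_mul_left _ _ (norm_ne_zero_iff.mpr hc0), hω, norm_rot, charpoly_rot, Fintype.card_fin]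
  have e2 : hh V₁ t = ‖T₁.charpoly.eval (ez (-τ) * ez t)‖ / ‖1 + ez t‖ ^ m := by
    unfold hh gg
    rw [b3, b3, mul_div_mul_left _ _ hc1, norm_div, hω, norm_rot, norm_rot, mul_zero,
      Fintype.card_fin]
    have e3 : ‖T₁.charpoly.eval 0‖ = 1 := by
      rw [charpoly_eval', zero_smul, zero_sub, Matrix.det_neg, norm_mul, det_norm_one hdG₁ hT₁]
      simp
    rw [e3, div_one]
  rw [e1, e2]

theorem charpoly_ne_of {n : ℕ} (T : Matrix (Fin n) (Fin n) ℂ) {τ : ℝ}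
    (h : T.charpoly.eval (ez (-τ)) ≠ 0) : (1 - ez τ • T).det ≠ 0 := by
  have h1 := norm_rot T τ 1
  rw [one_smul, mul_one] at h1
  rw [← norm_ne_zero_iff, h1, norm_ne_zero_iff]
  exact h

/-- the comparison at the rotation `1` -/
theorem iso_dom {n m d k : ℕ} (G T : Matrix (Fin n) (Fin n) ℂ) (G₁ T₁ : Matrix (Fin m) (Fin m) ℂ)
    (A : Matrix (Fin n) (Fin d) ℂ) (B : Matrix (Fin m) (Fin d) ℂ) (C₀ : Matrix (Fin k) (Fin n) ℂ)
    (hG : Gᴴ = G) (hG₁ : G₁ᴴ = G₁) (hdG : G.det ≠ 0) (hdG₁ : G₁.det ≠ 0)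
    (hT : Tᴴ * G * T = G) (hT₁ : T₁ᴴ * G₁ * T₁ = G₁)
    (hA : Function.Injective A.mulVec) (hB : Function.Injective B.mulVec)
    (h1 : Aᴴ * G * A = Bᴴ * G₁ * B) (h2 : (T * A)ᴴ * G * A = (T₁ * B)ᴴ * G₁ * B)
    (hn : n ≤ d + k) (hm : m ≤ d + k) (hC : ∀ x, C₀ *ᵥ x = 0 → 0 ≤ (sf G x x).re) :
    Dom (fun t => ‖T.charpoly.eval (ez t)‖ / T.charpoly.mahlerMeasure /
      ‖1 + ez t‖ ^ n / 2 / (‖T₁.charpoly.eval (ez t)‖ / ‖1 + ez t‖ ^ m))
      (CK (2 * k) + CK (2 * k)) := by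
  set r : ℂ[X] := T.charpoly * T₁.charpoly with hr
  have hr0 : r ≠ 0 := mul_ne_zero (Matrix.charpoly_monic _).ne_zero (Matrix.charpoly_monic _).ne_zero
  have hdense : (0 : ℝ) ∈ closure {t : ℝ | r.eval (ez t) ≠ 0} := by
    have h : Dense {t : ℝ | r.eval (ez t) ≠ 0} := Measure.dense_of_ae (ae_eval_ne r hr0)
    exact h 0
  obtain ⟨s, hs1, hs2⟩ := mem_closure_iff_seq_limit.mp hdense
  have hcont : ∀ (p : ℂ[X]) (t : ℝ), Tendsto (fun j => ‖p.eval (ez (s j) * ez t)‖) atTop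
      (𝓝 ‖p.eval (ez t)‖) := by
    intro p t
    have h : Continuous fun u : ℝ => ‖p.eval (ez u * ez t)‖ :=
      (p.continuous.comp (D_continuous_ez.mul continuous_const)).norm
    have h2 := (h.tendsto 0).comp hs2
    rwa [ez_zero, one_mul] at h2
  refine dom_lim (fun j t => ‖T.charpoly.eval (ez (s j) * ez t)‖ / T.charpoly.mahlerMeasure /
      ‖1 + ez t‖ ^ n / 2 / (‖T₁.charpoly.eval (ez (s j) * ez t)‖ / ‖1 + ez t‖ ^ m)) _ _ ?_ ?_ ?_ ?_
  · intro j
    have hc : ∀ p : ℂ[X], Measurable fun t => ‖p.eval (ez (s j) * ez t)‖ := fun p =>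
      (p.continuous.comp (continuous_const.mul D_continuous_ez)).norm.measurable
    exact ((((hc _).div_const _).div (pw_cont n).measurable).div_const _).div
      ((hc _).div (pw_cont m).measurable)
  · have hc : ∀ p : ℂ[X], Measurable fun t => ‖p.eval (ez t)‖ := fun p =>
      (p.continuous.comp D_continuous_ez).norm.measurable
    exact ((((hc _).div_const _).div (pw_cont n).measurable).div_const _).div
      ((hc _).div (pw_cont m).measurable)
  · refine Eventually.of_forall fun j => ?_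
    have hj : r.eval (ez (s j)) ≠ 0 := hs1 j
    rw [hr, eval_mul] at hj
    have e1 : T.charpoly.eval (ez (- -(s j))) ≠ 0 := by
      rw [neg_neg]
      exact left_ne_zero_of_mul hj
    have e2 : T₁.charpoly.eval (ez (- -(s j))) ≠ 0 := by
      rw [neg_neg]
      exact right_ne_zero_of_mul hj
    have h := iso_step G T G₁ T₁ A B C₀ hG hG₁ hdG hdG₁ hT hT₁ hA hB h1 h2 hn hm hC (-(s j))
      (charpoly_ne_of T e1) (charpoly_ne_of T₁ e2)
    rwa [neg_neg] at h
  · have hm1 : ∀ᵐ t : ℝ, (1 + X : ℂ[X]).eval (ez t) ≠ 0 := ae_eval_ne _ (by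
      intro h
      have := congrArg (fun p : ℂ[X] => p.eval 0) h
      simp at this)
    filter_upwards [ae_eval_ne _ (Matrix.charpoly_monic T₁).ne_zero, hm1] with t h3 h4
    rw [eval_add, eval_one, eval_X] at h4
    have h5 : ‖1 + ez t‖ ≠ 0 := norm_ne_zero_iff.mpr h4
    have h6 : ‖T₁.charpoly.eval (ez t)‖ ≠ 0 := norm_ne_zero_iff.mpr h3
    exact ((((hcont _ t).div_const _).div_const _).div_const _).div ((hcont _ t).div_const _)
      (div_ne_zero h6 (pow_ne_zero _ h5))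

end

end Pool.Agent.L0h53.SC
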