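import Mathlib
import Pool.Agent.L0h53.SC.K

/-!
# The gap theorems, second form
-/

set_option autoImplicit false
set_option linter.unusedSectionVars false

namespace Pool.Agent.L0h53.SC

open MeasureTheory Polynomial Filter Matrix Module Topology
open Pool.Agent.H261R2.CM
open Pool.Agent.W242.IM (ae_eval_ne)
open Pool.Agent.Y820.LB

noncomputable section

theorem dom_mono {H H' : ℝ → ℝ} {c : ℝ} (h : Dom H c) (h' : ∀ᵐ t : ℝ, 0 ≤ H' t ∧ H' t ≤ H t) :
    Dom H' c := by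
  obtain ⟨g, h1, h2, h3⟩ := h
  refine ⟨g, h1, ?_, h3⟩
  filter_upwards [h2, h'] with t h4 h5
  refine ⟨h5.1, le_trans (Real.log_le_log (by linarith [h5.1]) (by linarith [h5.2])) h4.2⟩

/-- from the bound to the gap -/
theorem gap_core2 (D c : ℝ) : ∃ μ : ℝ, 1 < μ ∧ μ ≤ 2 ∧ ∀ (P P₁ : ℤ[X]) (n m : ℕ),
    P ≠ 0 → P₁ ≠ 0 → m1 P₁ ≤ c →
    Dom (fun t => ‖(toC P).eval (ez t)‖ / m1 P / ‖1 + ez t‖ ^ n / 2 /
      (‖(toC P₁).eval (ez t)‖ / ‖1 + ez t‖ ^ m)) D →
    μ ≤ m1 P ∨ ∀ (z : ℂ) (r : ℕ), 1 < ‖z‖ → (X - C z) ^ r ∣ toC P → (X - C z) ^ r ∣ toC P₁ := by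
  obtain ⟨μ, h1, h2, hgap⟩ := pair_gap (Real.log 4 + D + Real.log c)
  refine ⟨μ, h1, h2, ?_⟩
  intro P P₁ n m hP0 hP10 hc hdom
  by_contra hcon
  push Not at hcon
  obtain ⟨hlt, z, r, hz2, hz1, hz3⟩ := hcon
  -- the pair
  set P' : ℤ[X] := (1 + X) ^ m * P with hP'
  set Q : ℤ[X] := (1 + X) ^ n * P₁ with hQ
  have hP'e : ∀ z, (toC P').eval z = (1 + z) ^ m * (toC P).eval z := by
    intro z
    rw [hP', toC_mul, eval_mul]
    simp [toC]
  have hQe : ∀ z, (toC Q).eval z = (1 + z) ^ n * (toC P₁).eval z := by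
    intro z
    rw [hQ, toC_mul, eval_mul]
    simp [toC]
  have h1X : (1 + X : ℤ[X]) ≠ 0 := by
    intro h
    have := congrArg (eval 0) h
    simp at this
  have hP'0 : P' ≠ 0 := mul_ne_zero (pow_ne_zero _ h1X) hP0
  have hQ0 : Q ≠ 0 := mul_ne_zero (pow_ne_zero _ h1X) hP10
  have hcyc : ∀ j : ℕ, m1 ((1 + X : ℤ[X]) ^ j) = 1 := by
    intro j
    have h3 : (toC ((1 + X : ℤ[X]) ^ j)).mahlerMeasure = 1 := by
      rw [mahler_of_no_zeros]
      · simp [toC]
      · intro z hz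
        have : (toC ((1 + X : ℤ[X]) ^ j)).eval z = (1 + z) ^ j := by simp [toC]
        rw [this]
        refine pow_ne_zero _ fun h => ?_
        have : z = -1 := by linear_combination h
        rw [this] at hz
        simp at hz
    exact h3
  have hmP' : m1 P' = m1 P := by rw [hP', m1_mul, hcyc, one_mul]
  have hmQ : m1 Q = m1 P₁ := by rw [hQ, m1_mul, hcyc, one_mul]
  have h1P := one_le_m1 hP0
  have h1P₁ := one_le_m1 hP10
  have hlt' : m1 P' < μ := by rw [hmP']; exact hlt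
  refine absurd (hgap P' Q hP'0 (fun t => ev1 Q t / ev1 P' t) ?_ ?_ z r hz2 ?_ ?_)
    (not_le.mpr hlt')
  · obtain ⟨g, g1, g2, g3⟩ := hdom
    refine ⟨fun t => Real.log 4 + g t +
      (Real.log ‖(toC Q).eval (ez t)‖ - Real.log ‖(toC P').eval (ez t)‖),
      (intervalIntegrable_const.add g1).add ((integrable_log _).sub (integrable_log _)), ?_, ?_⟩
    · have hp : ∀ᵐ t : ℝ, (1 + X : ℂ[X]).eval (ez t) ≠ 0 := ae_eval_ne _ (by
        intro h
        have := congrArg (eval 0) h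
        simp at this)
      filter_upwards [g2, ae_eval_ne _ (D_toC_ne P' hP'0), ae_eval_ne _ (D_toC_ne Q hQ0), hp]
        with t t1 t2 t3 t4
      rw [eval_add, eval_one, eval_X] at t4
      refine ⟨norm_nonneg _, ?_⟩
      have p1 : 0 < ‖(toC P').eval (ez t)‖ := norm_pos_iff.mpr t2
      have p2 : 0 < ‖(toC Q).eval (ez t)‖ := norm_pos_iff.mpr t3
      have p3 : ‖1 + ez t‖ ≠ 0 := norm_ne_zero_iff.mpr t4
      have q1 : ‖ev1 Q t / ev1 P' t‖ = ‖(toC Q).eval (ez t)‖ / ‖(toC P').eval (ez t)‖ := by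
        rw [norm_div]
        rfl
      set R := ‖(toC P).eval (ez t)‖ / m1 P / ‖1 + ez t‖ ^ n / 2 /
        (‖(toC P₁).eval (ez t)‖ / ‖1 + ez t‖ ^ m) with hR
      have q2 : ‖(toC P').eval (ez t)‖ / ‖(toC Q).eval (ez t)‖ ≤ 4 * R := by
        have r1 : ‖(toC P₁).eval (ez t)‖ ≠ 0 := by
          intro h
          rw [hQe, norm_mul, h, mul_zero] at p2
          exact lt_irrefl _ p2
        have r5 : m1 P ≠ 0 := by linarith
        have r9 : ‖(toC P').eval (ez t)‖ / ‖(toC Q).eval (ez t)‖ = m1 P * (2 * R) := by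
          rw [hR, hP'e, hQe, norm_mul, norm_mul, norm_pow, norm_pow]
          field_simp
        have r11 : m1 P ≤ 2 := by linarith
        rw [r9]
        have := mul_le_mul_of_nonneg_right r11 (by linarith [t1.1] : 0 ≤ 2 * R)
        linarith
      have q3 : 1 + ‖ev1 Q t / ev1 P' t‖ = (1 + ‖(toC P').eval (ez t)‖ / ‖(toC Q).eval (ez t)‖) *
          (‖(toC Q).eval (ez t)‖ / ‖(toC P').eval (ez t)‖) := by
        rw [q1]
        field_simp
        ring
      rw [q3, Real.log_mul (by positivity) (by positivity), Real.log_div p2.ne' p1.ne']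
      have q4 : Real.log (1 + ‖(toC P').eval (ez t)‖ / ‖(toC Q).eval (ez t)‖) ≤
          Real.log 4 + g t := by
        refine le_trans ?_ (add_le_add le_rfl t1.2)
        rw [← Real.log_mul (by norm_num) (by linarith [t1.1])]
        refine Real.log_le_log (by positivity) ?_
        linarith [t1.1]
      linarith
    · rw [intervalIntegral.integral_add (intervalIntegrable_const.add g1)
        ((integrable_log _).sub (integrable_log _)),
        intervalIntegral.integral_add intervalIntegrable_const g1,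
        intervalIntegral.integral_sub (integrable_log _) (integrable_log _), ← log_mahler,
        ← log_mahler]
      have r1 : 0 ≤ Real.log (toC P').mahlerMeasure := Real.log_nonneg (one_le_m1 hP'0)
      have r2 : (toC Q).mahlerMeasure = m1 P₁ := hmQ
      have r3 : Real.log (m1 P₁) ≤ Real.log c := Real.log_le_log (by linarith) hc
      rw [r2]
      simp only [intervalIntegral.integral_const, sub_zero, one_smul]
      linarith
  · filter_upwards [ae_eval_ne _ (D_toC_ne P' hP'0)] with t ht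
    have : ev1 P' t ≠ 0 := ht
    rw [mul_div_cancel₀ _ this]
  · rw [hP', toC_mul]
    exact hz1.mul_left _
  · intro h3
    apply hz3
    have h4 : toC Q = (1 + X) ^ n * toC P₁ := by
      rw [hQ, toC_mul]
      congr 1
      simp [toC]
    rw [h4] at h3
    have h5 : IsCoprime ((X - C z) ^ r) ((1 + X : ℂ[X]) ^ n) := by
      refine IsCoprime.pow ?_
      refine (EuclideanDomain.dvd_or_coprime _ _ (irreducible_X_sub_C z)).resolve_left fun h14 => ?_
      have h15 := dvd_iff_isRoot.mp h14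
      rw [IsRoot, eval_add, eval_one, eval_X] at h15
      have h7 : z = -1 := by linear_combination h15
      rw [h7] at hz2
      simp at hz2
    exact h5.dvd_of_dvd_mul_left h3

/-- the gap theorem for pencils -/
theorem gap_pencil2 (k : ℕ) (c : ℝ) : ∃ μ : ℝ, 1 < μ ∧ μ ≤ 2 ∧
    ∀ (n m d : ℕ) (V : Matrix (Fin n) (Fin n) ℂ) (V₁ : Matrix (Fin m) (Fin m) ℂ)
    (A : Matrix (Fin n) (Fin d) ℂ) (B : Matrix (Fin m) (Fin d) ℂ) (P P₁ : ℤ[X]) (κ κ₁ : ℂ),
    Function.Injective A.mulVec → Function.Injective B.mulVec → Aᴴ * V * A = Bᴴ * V₁ * B →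
    n ≤ d + k → m ≤ d + k → (∀ x, 0 ≤ (sf (Aᴴ * V * A) x x).re) → V₁.det ≠ 0 →
    (∀ z, (toC P).eval z = κ * ff V z) → (∀ z, (toC P₁).eval z = κ₁ * ff V₁ z) →
    P ≠ 0 → P₁ ≠ 0 → m1 P₁ ≤ c →
    μ ≤ m1 P ∨ ∀ (z : ℂ) (r : ℕ), 1 < ‖z‖ → (X - C z) ^ r ∣ toC P → (X - C z) ^ r ∣ toC P₁ := by
  obtain ⟨μ, h1, h2, hgap⟩ := gap_core2 (CK k + CK k) c
  refine ⟨μ, h1, h2, ?_⟩
  intro n m d V V₁ A B P P₁ κ κ₁ hA hB hAB hn hm hacc hdet hP hP₁ hP0 hP10 hc
  have hκ : κ ≠ 0 := by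
    rintro rfl
    apply D_toC_ne P hP0
    refine Polynomial.funext fun z => ?_
    rw [hP, zero_mul, eval_zero]
  have hκ₁ : κ₁ ≠ 0 := by
    rintro rfl
    apply D_toC_ne P₁ hP10
    refine Polynomial.funext fun z => ?_
    rw [hP₁, zero_mul, eval_zero]
  have hfp : toC P = C κ * fp V := by
    refine Polynomial.funext fun z => ?_
    rw [hP, eval_mul, eval_C, fp_eval]
  have hfV : fp V ≠ 0 := by
    intro h
    rw [h, mul_zero] at hfp
    exact D_toC_ne P hP0 hfp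
  have hm1 : m1 P = ‖κ‖ * (fp V).mahlerMeasure := by
    unfold m1
    rw [hfp, mahlerMeasure_mul, mahlerMeasure_const]
  have hff0 : ff V₁ 0 ≠ 0 := by
    rw [ff_zero']
    exact star_ne_zero.mpr hdet
  have hP0e : (toC P₁).eval 0 = ((P₁.eval 0 : ℤ) : ℂ) := by
    simp [toC, eval_map, eval₂_at_zero, coeff_zero_eq_eval_zero]
  have hβ : 1 ≤ ‖(toC P₁).eval 0‖ := by
    have h3 : (toC P₁).eval 0 ≠ 0 := by
      rw [hP₁]
      exact mul_ne_zero hκ₁ hff0
    rw [hP0e] at h3 ⊢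
    rw [Complex.norm_intCast]
    exact_mod_cast Int.one_le_abs (by exact_mod_cast h3)
  refine hgap P P₁ n m hP0 hP10 hc ?_
  have hmP : 0 < m1 P := by linarith [one_le_m1 hP0]
  have hnn : ∀ t, 0 ≤ ‖(toC P).eval (ez t)‖ / m1 P / ‖1 + ez t‖ ^ n / 2 /
      (‖(toC P₁).eval (ez t)‖ / ‖1 + ez t‖ ^ m) := fun t => by positivity
  refine dom_mono (common_general V V₁ A B hA hB hAB hn hm hfV hacc hdet)
    (Eventually.of_forall fun t => ⟨hnn t, ?_⟩)
  have r5 : ‖κ‖ ≠ 0 := norm_ne_zero_iff.mpr hκ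
  have r6 : ‖κ₁‖ ≠ 0 := norm_ne_zero_iff.mpr hκ₁
  have e1 : ‖(toC P).eval (ez t)‖ / m1 P / ‖1 + ez t‖ ^ n / 2 = mh V t / 2 := by
    unfold mh
    rw [hP, hm1, Fintype.card_fin, norm_mul, mul_div_mul_left _ _ r5]
  have e2 : hh V₁ t = (‖(toC P₁).eval (ez t)‖ / ‖1 + ez t‖ ^ m) / ‖(toC P₁).eval 0‖ := by
    unfold hh gg
    rw [hP₁, hP₁, Fintype.card_fin, norm_mul, norm_mul, norm_div]
    rw [div_right_comm, mul_div_assoc ‖κ₁‖, mul_div_mul_left _ _ r6]
  have hb : 0 ≤ ‖(toC P₁).eval (ez t)‖ / ‖1 + ez t‖ ^ m := by positivity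
  rw [e1, e2]
  generalize ‖(toC P₁).eval (ez t)‖ / ‖1 + ez t‖ ^ m = b at hb ⊢
  rw [div_div_eq_mul_div]
  refine div_le_div_of_nonneg_right ?_ hb
  refine le_mul_of_one_le_right ?_ hβ
  unfold mh
  exact div_nonneg (div_nonneg (div_nonneg (norm_nonneg _) (mahlerMeasure_nonneg _)) (by positivity))
    (by norm_num)

end

end Pool.Agent.L0h53.SC
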