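import Mathlib
import Pool.Agent.L0h53.SC.L

/-!
# The gap theorems for isometries
-/

set_option autoImplicit false
set_option linter.unusedSectionVars false

namespace Pool.Agent.L0h53.SC

open MeasureTheory Polynomial Filter Matrix Module Topology
open Pool.Agent.H261R2.CM
open Pool.Agent.W242.IM (ae_eval_ne)
open Pool.Agent.Y820.LB

noncomputable section

/-- the gap theorem for isometries which agree on a subspace -/
theorem gap_isometry (k : ℕ) (c : ℝ) : ∃ μ : ℝ, 1 < μ ∧ μ ≤ 2 ∧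
    ∀ (n m d : ℕ) (G T : Matrix (Fin n) (Fin n) ℂ) (G₁ T₁ : Matrix (Fin m) (Fin m) ℂ)
    (A : Matrix (Fin n) (Fin d) ℂ) (B : Matrix (Fin m) (Fin d) ℂ) (C₀ : Matrix (Fin k) (Fin n) ℂ)
    (P P₁ : ℤ[X]) (κ κ₁ : ℂ),
    Gᴴ = G → G₁ᴴ = G₁ → G.det ≠ 0 → G₁.det ≠ 0 → Tᴴ * G * T = G → T₁ᴴ * G₁ * T₁ = G₁ →
    Function.Injective A.mulVec → Function.Injective B.mulVec →
    Aᴴ * G * A = Bᴴ * G₁ * B → (T * A)ᴴ * G * A = (T₁ * B)ᴴ * G₁ * B →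
    n ≤ d + k → m ≤ d + k → (∀ x, C₀ *ᵥ x = 0 → 0 ≤ (sf G x x).re) →
    toC P = C κ * T.charpoly → toC P₁ = C κ₁ * T₁.charpoly →
    P ≠ 0 → P₁ ≠ 0 → m1 P₁ ≤ c →
    μ ≤ m1 P ∨ ∀ (z : ℂ) (r : ℕ), 1 < ‖z‖ → (X - C z) ^ r ∣ toC P → (X - C z) ^ r ∣ toC P₁ := by
  obtain ⟨μ, h1, h2, hgap⟩ := gap_core2 (CK (2 * k) + CK (2 * k)) c
  refine ⟨μ, h1, h2, ?_⟩
  intro n m d G T G₁ T₁ A B C₀ P P₁ κ κ₁ hG hG₁ hdG hdG₁ hT hT₁ hA hB hAB hAB' hn hm hC hP hP₁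
    hP0 hP10 hc
  refine hgap P P₁ n m hP0 hP10 hc ?_
  have hdom := iso_dom G T G₁ T₁ A B C₀ hG hG₁ hdG hdG₁ hT hT₁ hA hB hAB hAB' hn hm hC
  have hκ : κ ≠ 0 := by
    rintro rfl
    apply D_toC_ne P hP0
    rw [hP, C_0, zero_mul]
  have hκ₁ : κ₁ ≠ 0 := by
    rintro rfl
    apply D_toC_ne P₁ hP10
    rw [hP₁, C_0, zero_mul]
  have hm1 : m1 P = ‖κ‖ * T.charpoly.mahlerMeasure := by
    unfold m1
    rw [hP, mahlerMeasure_mul, mahlerMeasure_const]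
  have hT0 : ‖T₁.charpoly.eval 0‖ = 1 := by
    rw [charpoly_eval', zero_smul, zero_sub, Matrix.det_neg, norm_mul, det_norm_one hdG₁ hT₁]
    simp
  have hP0e : (toC P₁).eval 0 = ((P₁.eval 0 : ℤ) : ℂ) := by
    simp [toC, eval_map, eval₂_at_zero, coeff_zero_eq_eval_zero]
  have hβ : 1 ≤ ‖κ₁‖ := by
    have e1 : ‖(toC P₁).eval 0‖ = ‖κ₁‖ := by
      rw [hP₁, eval_mul, eval_C, norm_mul, hT0, mul_one]
    have h3 : (toC P₁).eval 0 ≠ 0 := by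
      rw [← norm_ne_zero_iff, e1]
      exact norm_ne_zero_iff.mpr hκ₁
    rw [← e1]
    rw [hP0e] at h3 ⊢
    rw [Complex.norm_intCast]
    exact_mod_cast Int.one_le_abs (by exact_mod_cast h3)
  have hmP : 0 < m1 P := by linarith [one_le_m1 hP0]
  have hnn : ∀ t, 0 ≤ ‖(toC P).eval (ez t)‖ / m1 P / ‖1 + ez t‖ ^ n / 2 /
      (‖(toC P₁).eval (ez t)‖ / ‖1 + ez t‖ ^ m) := fun t => by positivity
  refine dom_mono hdom (Eventually.of_forall fun t => ⟨hnn t, ?_⟩)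
  have r5 : ‖κ‖ ≠ 0 := norm_ne_zero_iff.mpr hκ
  have r6 : 0 < ‖κ₁‖ := norm_pos_iff.mpr hκ₁
  have e1 : ‖(toC P).eval (ez t)‖ / m1 P / ‖1 + ez t‖ ^ n / 2 =
      ‖T.charpoly.eval (ez t)‖ / T.charpoly.mahlerMeasure / ‖1 + ez t‖ ^ n / 2 := by
    rw [hP, hm1, eval_mul, eval_C, norm_mul, mul_div_mul_left _ _ r5]
  have e2 : ‖T₁.charpoly.eval (ez t)‖ / ‖1 + ez t‖ ^ m =
      (‖(toC P₁).eval (ez t)‖ / ‖1 + ez t‖ ^ m) / ‖κ₁‖ := by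
    rw [hP₁, eval_mul, eval_C, norm_mul]
    field_simp
  have hb : 0 ≤ ‖(toC P₁).eval (ez t)‖ / ‖1 + ez t‖ ^ m := by positivity
  rw [e1, e2]
  generalize ‖(toC P₁).eval (ez t)‖ / ‖1 + ez t‖ ^ m = b at hb ⊢
  rw [div_div_eq_mul_div]
  refine div_le_div_of_nonneg_right ?_ hb
  refine le_mul_of_one_le_right ?_ hβ
  exact div_nonneg (div_nonneg (div_nonneg (norm_nonneg _) (mahlerMeasure_nonneg _)) (by positivity))
    (by norm_num)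

theorem exists_kernel {n k : ℕ} (M : Matrix (Fin n) (Fin n) ℂ) (h : M.rank ≤ k) :
    ∃ (d : ℕ) (A : Matrix (Fin n) (Fin d) ℂ), Function.Injective A.mulVec ∧ M * A = 0 ∧
      n ≤ d + k := by
  set K := LinearMap.ker M.mulVecLin with hK
  have hmem : ∀ v ∈ K, M *ᵥ v = 0 := by
    intro v hv
    rw [hK, LinearMap.mem_ker] at hv
    exact hv
  set b := finBasis ℂ K with hb
  refine ⟨finrank ℂ K, Matrix.of fun i j => (b j : Fin n → ℂ) i, ?_, ?_, ?_⟩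
  · rw [Matrix.mulVec_injective_iff]
    have e1 := b.linearIndependent.map' K.subtype (Submodule.ker_subtype K)
    have e2 : (K.subtype ∘ ⇑b) =
        (Matrix.of fun i j => (b j : Fin n → ℂ) i : Matrix (Fin n) (Fin (finrank ℂ K)) ℂ).col := by
      ext j i
      rfl
    rwa [e2] at e1
  · ext i j
    have e1 : M *ᵥ (b j : Fin n → ℂ) = 0 := hmem _ (Submodule.coe_mem _)
    have e2 := congrFun e1 i
    rw [Matrix.mul_apply, Matrix.zero_apply]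
    exact e2
  · have e1 := LinearMap.finrank_range_add_finrank_ker M.mulVecLin
    rw [Module.finrank_fin_fun] at e1
    have e2 : finrank ℂ (LinearMap.range M.mulVecLin) ≤ k := h
    rw [hK]
    omega

/-- the gap theorem for two isometries of the same form -/
theorem gap_isometry_rank (k : ℕ) (c : ℝ) : ∃ μ : ℝ, 1 < μ ∧ μ ≤ 2 ∧
    ∀ (n : ℕ) (G T T₁ : Matrix (Fin n) (Fin n) ℂ) (C₀ : Matrix (Fin k) (Fin n) ℂ)
    (P P₁ : ℤ[X]) (κ κ₁ : ℂ),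
    Gᴴ = G → G.det ≠ 0 → Tᴴ * G * T = G → T₁ᴴ * G * T₁ = G → (T - T₁).rank ≤ k →
    (∀ x, C₀ *ᵥ x = 0 → 0 ≤ (sf G x x).re) →
    toC P = C κ * T.charpoly → toC P₁ = C κ₁ * T₁.charpoly →
    P ≠ 0 → P₁ ≠ 0 → m1 P₁ ≤ c →
    μ ≤ m1 P ∨ ∀ (z : ℂ) (r : ℕ), 1 < ‖z‖ → (X - C z) ^ r ∣ toC P → (X - C z) ^ r ∣ toC P₁ := by
  obtain ⟨μ, h1, h2, h⟩ := gap_isometry k c
  refine ⟨μ, h1, h2, ?_⟩
  intro n G T T₁ C₀ P P₁ κ κ₁ hG hdG hT hT₁ hr hC hP hP₁ hP0 hP10 hc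
  obtain ⟨d, A, hA, hA0, hd⟩ := exists_kernel (T - T₁) hr
  have h3 : T * A = T₁ * A := by
    rw [Matrix.sub_mul] at hA0
    exact sub_eq_zero.mp hA0
  exact h n n d G T G T₁ A A C₀ P P₁ κ κ₁ hG hG hdG hdG hT hT₁ hA hA rfl (by rw [h3]) hd hd hC hP
    hP₁ hP0 hP10 hc

/-- from outside zeros to the gap -/
theorem gap_of_outside {P P₁ : ℤ[X]} {μ : ℝ} (hP : P ≠ 0) (hμ : μ ≤ 2)
    (h : μ ≤ m1 P ∨ ∀ (z : ℂ) (r : ℕ), 1 < ‖z‖ → (X - C z) ^ r ∣ toC P → (X - C z) ^ r ∣ toC P₁)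
    (hout : ∀ z : ℂ, 1 < ‖z‖ → (toC P₁).eval z ≠ 0) : m1 P = 1 ∨ μ ≤ m1 P := by
  rcases h with h | h
  · exact Or.inr h
  by_cases h1 : m1 P = 1
  · exact Or.inl h1
  right
  rcases m1_cases P hP h1 with h2 | ⟨z, hz1, hz2⟩
  · linarith
  · exfalso
    have h3 := h z 1 hz2 (by rw [pow_one]; exact dvd_iff_isRoot.mpr hz1)
    rw [pow_one] at h3
    exact hout z hz2 (dvd_iff_isRoot.mp h3)

theorem in_of_mahler_one (p : ℂ[X]) (hp : p.Monic) (h : p.mahlerMeasure = 1) :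
    ∀ z : ℂ, 1 < ‖z‖ → p.eval z ≠ 0 := by
  intro z hz h0
  have h1 : (X - C z) * (p /ₘ (X - C z)) = p := mul_divByMonic_eq_iff_isRoot.mpr h0
  have hq : (p /ₘ (X - C z)).Monic := by
    have h3 := congrArg leadingCoeff h1
    rw [leadingCoeff_mul, leadingCoeff_X_sub_C, one_mul, hp.leadingCoeff] at h3
    exact h3
  have h2 : 1 ≤ (p /ₘ (X - C z)).mahlerMeasure :=
    one_le_mahlerMeasure_of_one_le_norm_leadingCoeff (by rw [hq.leadingCoeff, norm_one])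
  rw [← h1, mahlerMeasure_mul, mahlerMeasure_X_sub_C] at h
  have h4 : ‖z‖ ≤ max 1 ‖z‖ := le_max_right _ _
  nlinarith

end

end Pool.Agent.L0h53.SC
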