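import Mathlib
import Pool.Agent.L0h53.SC.M

/-!
# Real and integral matrices
-/

set_option autoImplicit false
set_option linter.unusedSectionVars false

namespace Pool.Agent.L0h53.SC

open MeasureTheory Polynomial Filter Matrix Module Topology
open Pool.Agent.H261R2.CM
open Pool.Agent.W242.IM (ae_eval_ne)
open Pool.Agent.Y820.LB

noncomputable section

variable {ι : Type*} [Fintype ι] [DecidableEq ι]

/-- a real form at a complex vector -/
theorem re_sf_real (W : Matrix ι ι ℝ) (x : ι → ℂ) :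
    (sf (W.map (fun a : ℝ => (a : ℂ))) x x).re =
      (fun i => (x i).re) ⬝ᵥ (W *ᵥ fun i => (x i).re) +
      (fun i => (x i).im) ⬝ᵥ (W *ᵥ fun i => (x i).im) := by
  unfold sf
  simp only [dotProduct, Matrix.mulVec, Matrix.map_apply, Pi.star_apply, Complex.re_sum,
    Finset.mul_sum, ← Finset.sum_add_distrib]
  refine Finset.sum_congr rfl fun i _ => ?_
  refine Finset.sum_congr rfl fun j _ => ?_
  have h : (star (x i)) = starRingEnd ℂ (x i) := rfl
  rw [h]
  simp only [Complex.mul_re, Complex.mul_im, Complex.conj_re, Complex.conj_im, Complex.ofReal_re,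
    Complex.ofReal_im]
  ring

theorem mulVec_real {κ : Type*} [Fintype κ] (M : Matrix κ ι ℝ) (x : ι → ℂ)
    (h : (M.map (fun a : ℝ => (a : ℂ))) *ᵥ x = 0) :
    (M *ᵥ fun i => (x i).re) = 0 ∧ (M *ᵥ fun i => (x i).im) = 0 := by
  constructor
  · ext l
    have h1 := congrArg Complex.re (congrFun h l)
    simp only [Matrix.mulVec, dotProduct, Matrix.map_apply, Complex.re_sum, Pi.zero_apply,
      Complex.zero_re, Complex.mul_re, Complex.ofReal_re, Complex.ofReal_im, zero_mul,
      sub_zero] at h1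
    exact h1
  · ext l
    have h1 := congrArg Complex.im (congrFun h l)
    simp only [Matrix.mulVec, dotProduct, Matrix.map_apply, Complex.im_sum, Pi.zero_apply,
      Complex.zero_im, Complex.mul_im, Complex.ofReal_re, Complex.ofReal_im, zero_mul,
      add_zero] at h1
    exact h1

/-- the complex matrix of an integral matrix -/
def cx {κ : Type*} (V : Matrix κ ι ℤ) : Matrix κ ι ℂ := V.map (Int.castRingHom ℂ)

theorem cx_real {κ : Type*} (V : Matrix κ ι ℤ) :
    cx V = (V.map (Int.cast : ℤ → ℝ)).map (fun a : ℝ => (a : ℂ)) := by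
  ext i j
  simp [cx]

theorem cx_conjTranspose {κ : Type*} (V : Matrix κ ι ℤ) : (cx V)ᴴ = (cx V)ᵀ := by
  ext i j
  simp [cx]

/-- the polynomial `det (X V + Vᵀ)` -/
def sp (V : Matrix ι ι ℤ) : ℤ[X] := (Matrix.of fun i j => X * C (V i j) + C (V j i)).det

theorem sp_eval (V : Matrix ι ι ℤ) (z : ℂ) : (toC (sp V)).eval z = ff (cx V) z := by
  unfold sp toC ff
  rw [← coe_mapRingHom, RingHom.map_det, ← coe_evalRingHom, RingHom.map_det]
  congr 1
  ext i j
  simp [cx, Matrix.conjTranspose_apply]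

theorem cx_det (V : Matrix ι ι ℤ) : (cx V).det = (V.det : ℂ) := by
  unfold cx
  exact (RingHom.map_det (Int.castRingHom ℂ) V).symm

theorem charpoly_cx (V : Matrix ι ι ℤ) : toC V.charpoly = (cx V).charpoly := by
  unfold cx toC
  exact (Matrix.charpoly_map V (Int.castRingHom ℂ)).symm

/-- the polynomial of a nonsingular accretive integral matrix -/
theorem sp_acc (V : Matrix ι ι ℤ) (hV : ∀ x : ι → ℝ, 0 ≤ x ⬝ᵥ ((V.map (Int.cast : ℤ → ℝ)) *ᵥ x))
    (hdet : V.det ≠ 0) :
    (∀ x, 0 ≤ (sf (cx V) x x).re) ∧ (∀ z : ℂ, 1 < ‖z‖ → (toC (sp V)).eval z ≠ 0) ∧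
    m1 (sp V) = |(V.det : ℝ)| := by
  have hacc : ∀ x, 0 ≤ (sf (cx V) x x).re := by
    intro x
    rw [cx_real, re_sf_real]
    exact add_nonneg (hV _) (hV _)
  have hd : (cx V).det ≠ 0 := by
    rw [cx_det]
    exact_mod_cast hdet
  have h1 : ∀ z : ℂ, ‖z‖ < 1 → (toC (sp V)).eval z ≠ 0 := by
    intro z hz
    rw [sp_eval]
    exact ff_ne_semi hacc hd hz
  refine ⟨hacc, ?_, ?_⟩
  · intro z hz h
    rw [sp_eval] at h
    have hz0 : z ≠ 0 := by
      rintro rfl
      simp at hz
      linarith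
    have h2 := ff_reflect (cx V) hz0 h
    refine ff_ne_semi hacc hd ?_ h2
    rw [norm_inv, RCLike.norm_conj]
    exact inv_lt_one_of_one_lt₀ hz
  · show (toC (sp V)).mahlerMeasure = _
    rw [mahler_of_no_zeros _ h1, sp_eval, ff_zero', cx_det, norm_star, Complex.norm_intCast]

/-- a finite order matrix -/
theorem finite_order {n N : ℕ} (T : Matrix (Fin n) (Fin n) ℤ) (hN : 0 < N) (hT : T ^ N = 1) :
    m1 T.charpoly = 1 := by
  have h1 : ∀ z : ℂ, ‖z‖ < 1 → (toC T.charpoly).eval z ≠ 0 := by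
    intro z hz h
    rw [charpoly_cx, charpoly_eval'] at h
    obtain ⟨v, hv, h2⟩ := Matrix.exists_mulVec_eq_zero_iff.mpr h
    have h3 : cx T *ᵥ v = z • v := by
      rw [Matrix.sub_mulVec, Matrix.smul_mulVec, Matrix.one_mulVec] at h2
      exact (sub_eq_zero.mp h2).symm
    have h4 : ∀ j : ℕ, (cx T) ^ j *ᵥ v = z ^ j • v := by
      intro j
      induction j with
      | zero => simp
      | succ j ih =>
        rw [pow_succ, ← Matrix.mulVec_mulVec, h3, Matrix.mulVec_smul, ih, smul_smul, pow_succ,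
          mul_comm]
    have h5 : (cx T) ^ N = 1 := by
      show ((Int.castRingHom ℂ).mapMatrix T) ^ N = 1
      rw [← map_pow, hT, map_one]
    have h6 := h4 N
    rw [h5, Matrix.one_mulVec] at h6
    have h7 : z ^ N = 1 := by
      by_contra h8
      apply hv
      have h9 : (1 - z ^ N) • v = 0 := by rw [sub_smul, one_smul, ← h6, sub_self]
      exact (smul_eq_zero.mp h9).resolve_left (sub_ne_zero.mpr (Ne.symm h8))
    have h8 : ‖z‖ ^ N = 1 := by rw [← norm_pow, h7, norm_one]
    have h9 : ‖z‖ ^ N < 1 := pow_lt_one₀ (norm_nonneg _) hz hN.ne'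
    linarith
  show (toC T.charpoly).mahlerMeasure = 1
  rw [mahler_of_no_zeros _ h1]
  have h3 : IsUnit T.det := by
    have := congrArg Matrix.det hT
    rw [Matrix.det_pow, Matrix.det_one] at this
    exact IsUnit.of_pow_eq_one this hN.ne'
  rw [charpoly_cx, charpoly_eval', zero_smul, zero_sub, Matrix.det_neg, norm_mul, cx_det,
    Complex.norm_intCast]
  rcases Int.isUnit_iff.mp h3 with h4 | h4 <;> simp [h4]

end

end Pool.Agent.L0h53.SC
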