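import Mathlib
import Pool.Agent.L0h53.SC.N

/-!
# Integral forms
-/

set_option autoImplicit false
set_option linter.unusedSectionVars false

namespace Pool.Agent.L0h53.SC

open MeasureTheory Polynomial Filter Matrix Module Topology
open Pool.Agent.H261R2.CM
open Pool.Agent.W242.IM (ae_eval_ne)
open Pool.Agent.Y820.LB

noncomputable section

/-- the coordinate inclusion -/
def inc {n d : ℕ} (f : Fin d → Fin n) : Matrix (Fin n) (Fin d) ℂ :=
  Matrix.of fun i j => if i = f j then 1 else 0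

theorem inc_mul {n d : ℕ} (f : Fin d → Fin n) (V : Matrix (Fin n) (Fin n) ℂ) :
    (inc f)ᴴ * V * inc f = V.submatrix f f := by
  ext i j
  simp [inc, Matrix.mul_apply, Matrix.conjTranspose_apply]

theorem inc_injective {n d : ℕ} (f : Fin d → Fin n) (hf : Function.Injective f) :
    Function.Injective (inc f).mulVec := by
  intro x y hxy
  ext j
  have h := congrFun hxy (f j)
  simp only [Matrix.mulVec, dotProduct, inc, Matrix.of_apply, ite_mul, one_mul, zero_mul] at h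
  have h1 : ∀ w : Fin d → ℂ, (∑ l, if f j = f l then w l else 0) = w j := by
    intro w
    rw [Finset.sum_eq_single j]
    · rw [if_pos rfl]
    · intro l _ hl
      rw [if_neg fun h2 => hl (hf h2).symm]
    · simp
  rwa [h1, h1] at h

/-- the complement of a set of coordinates -/
def off {n : ℕ} (V : Matrix (Fin n) (Fin n) ℤ) (S : Finset (Fin n)) :
    Matrix {i // i ∉ S} {i // i ∉ S} ℤ := V.submatrix Subtype.val Subtype.val

theorem gap_seifert (k : ℕ) (c : ℝ) : ∃ μ : ℝ, 1 < μ ∧ μ ≤ 2 ∧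
    ∀ (n : ℕ) (V : Matrix (Fin n) (Fin n) ℤ) (S : Finset (Fin n)), S.card ≤ k →
    (∀ x : {i // i ∉ S} → ℝ, 0 ≤ x ⬝ᵥ (((off V S).map (Int.cast : ℤ → ℝ)) *ᵥ x)) →
    (off V S).det ≠ 0 → |((off V S).det : ℝ)| ≤ c → sp V ≠ 0 →
    m1 (sp V) = 1 ∨ μ ≤ m1 (sp V) := by
  obtain ⟨μ, h1, h2, hgap⟩ := gap_pencil2 k c
  refine ⟨μ, h1, h2, ?_⟩
  intro n V S hS hnn hdet hc hP
  set d := Fintype.card {i // i ∉ S} with hd
  set e : {i // i ∉ S} ≃ Fin d := Fintype.equivFin _ with he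
  set f : Fin d → Fin n := fun j => (e.symm j).val with hf
  have hfi : Function.Injective f := Subtype.val_injective.comp e.symm.injective
  set W : Matrix (Fin d) (Fin d) ℤ := (off V S).submatrix e.symm e.symm with hW
  have hWf : W = V.submatrix f f := rfl
  have hWd : W.det = (off V S).det := Matrix.det_submatrix_equiv_self _ _
  have hWn : ∀ x : Fin d → ℝ, 0 ≤ x ⬝ᵥ ((W.map (Int.cast : ℤ → ℝ)) *ᵥ x) := by
    intro x
    have e1 : W.map (Int.cast : ℤ → ℝ) = ((off V S).map (Int.cast : ℤ → ℝ)).submatrix e.symm e.symm :=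
      rfl
    have e2 := hnn (x ∘ e)
    have e3 : x ⬝ᵥ ((W.map (Int.cast : ℤ → ℝ)) *ᵥ x) =
        (x ∘ e) ⬝ᵥ (((off V S).map (Int.cast : ℤ → ℝ)) *ᵥ (x ∘ e)) := by
      rw [e1, Matrix.submatrix_mulVec_equiv]
      simp only [dotProduct, Function.comp_apply, Equiv.symm_symm]
      exact Fintype.sum_equiv e.symm _ _ fun j => by
        rw [Equiv.apply_symm_apply]
    rw [e3]
    exact e2
  obtain ⟨a1, a2, a3⟩ := sp_acc W hWn (by rw [hWd]; exact hdet)
  have hnd : n ≤ d + k := by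
    have : d = n - S.card := by
      rw [hd, Fintype.card_subtype_compl, Fintype.card_fin, Fintype.card_coe]
    omega
  refine gap_of_outside hP h2 (P₁ := sp W) ?_ a2
  refine hgap n d d (cx V) (cx W) (inc f) 1 (sp V) (sp W) 1 1 (inc_injective f hfi) ?_ ?_ hnd
    (by omega) ?_ ?_ ?_ ?_ hP ?_ ?_
  · intro x y hxy
    simpa using hxy
  · rw [inc_mul, Matrix.conjTranspose_one, Matrix.one_mul, Matrix.mul_one]
    rfl
  · rw [inc_mul]
    exact a1
  · rw [cx_det]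
    rw [hWd]
    exact_mod_cast hdet
  · intro z
    rw [sp_eval, one_mul]
  · intro z
    rw [sp_eval, one_mul]
  · intro h
    rw [h] at a3
    have h3 : m1 (0 : ℤ[X]) = 0 := by
      show (toC 0).mahlerMeasure = 0
      rw [toC, Polynomial.map_zero, mahlerMeasure_zero]
    rw [h3] at a3
    have h4 : ((W.det : ℤ) : ℝ) = 0 := abs_eq_zero.mp a3.symm
    rw [hWd] at h4
    exact hdet (by exact_mod_cast h4)
  · rw [a3, hWd]
    exact hc

theorem gap_lattice (k : ℕ) (c : ℝ) : ∃ μ : ℝ, 1 < μ ∧ μ ≤ 2 ∧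
    ∀ (n : ℕ) (G T T₁ : Matrix (Fin n) (Fin n) ℤ) (C₀ : Matrix (Fin k) (Fin n) ℝ),
    Gᵀ = G → G.det ≠ 0 → Tᵀ * G * T = G → T₁ᵀ * G * T₁ = G →
    ((T - T₁).map (Int.castRingHom ℂ)).rank ≤ k →
    (∀ x : Fin n → ℝ, C₀ *ᵥ x = 0 → 0 ≤ x ⬝ᵥ ((G.map (Int.cast : ℤ → ℝ)) *ᵥ x)) →
    m1 T₁.charpoly ≤ c →
    μ ≤ m1 T.charpoly ∨ ∀ (z : ℂ) (r : ℕ), 1 < ‖z‖ → (X - C z) ^ r ∣ toC T.charpoly →
      (X - C z) ^ r ∣ toC T₁.charpoly := by
  obtain ⟨μ, h1, h2, hgap⟩ := gap_isometry_rank k c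
  refine ⟨μ, h1, h2, ?_⟩
  intro n G T T₁ C₀ hG hdG hT hT₁ hr hC hc
  have hiso : ∀ A : Matrix (Fin n) (Fin n) ℤ, Aᵀ * G * A = G → (cx A)ᴴ * cx G * cx A = cx G := by
    intro A hA
    have h3 := congrArg (fun M : Matrix (Fin n) (Fin n) ℤ => (Int.castRingHom ℂ).mapMatrix M) hA
    simp only [map_mul] at h3
    have h4 : (cx A)ᴴ = (Int.castRingHom ℂ).mapMatrix Aᵀ := by
      rw [cx_conjTranspose]
      rfl
    rw [h4]
    exact h3
  refine hgap n (cx G) (cx T) (cx T₁) (C₀.map (fun a : ℝ => (a : ℂ))) T.charpoly T₁.charpoly 1 1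
    ?_ ?_ (hiso T hT) (hiso T₁ hT₁) ?_ ?_ ?_ ?_ (Matrix.charpoly_monic _).ne_zero
    (Matrix.charpoly_monic _).ne_zero hc
  · rw [cx_conjTranspose]
    nth_rewrite 2 [← hG]
    rfl
  · rw [cx_det]
    exact_mod_cast hdG
  · have h3 : cx T - cx T₁ = (T - T₁).map (Int.castRingHom ℂ) := by
      ext i j
      simp [cx]
    rw [h3]
    exact hr
  · intro x hx
    obtain ⟨b1, b2⟩ := mulVec_real C₀ x hx
    rw [cx_real, re_sf_real]
    exact add_nonneg (hC _ b1) (hC _ b2)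
  · rw [charpoly_cx, C_1, one_mul]
  · rw [charpoly_cx, C_1, one_mul]

end

end Pool.Agent.L0h53.SC
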